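import Pool.Agent.helper36.BP.SpecR
import Pool.Agent.helper95.MT.GGcrude

/-!
# Project bp, row FSB (copy of row FS of project CH by helper70, weighted with the divisor function)
-/

set_option autoImplicit false

namespace Pool.Agent.BP

open Finset Real MeasureTheory FourierTransform

/-- FSB_kernel function -/
private noncomputable def FSB_kf (c : ℝ) : ℝ → ℂ :=
  Set.indicator (Set.Ioi 0) (fun v => Complex.exp (((-c : ℝ) : ℂ) * v) - Complex.exp (((-(c + 1) : ℝ) : ℂ) * v))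

private noncomputable def FSB_kh (c : ℝ) (ξ : ℝ) : ℂ :=
  1 / (((c : ℂ) + 2 * π * ξ * Complex.I) * ((c : ℂ) + 1 + 2 * π * ξ * Complex.I))

private lemma FSB_kf_int (c : ℝ) (hc : 0 < c) : Integrable (FSB_kf c) := by
  unfold FSB_kf
  rw [integrable_indicator_iff measurableSet_Ioi]
  exact (integrableOn_exp_mul_complex_Ioi (by simpa using hc) 0).sub
    (integrableOn_exp_mul_complex_Ioi (by simp; linarith) 0)

private lemma FSB_kf_cont (c : ℝ) : Continuous (FSB_kf c) := by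
  unfold FSB_kf
  apply Continuous.indicator
  · intro v hv
    rw [frontier_Ioi] at hv
    simp at hv
    subst hv
    simp
  · fun_prop

private lemma FSB_kf_four (c : ℝ) (hc : 0 < c) (ξ : ℝ) : 𝓕 (FSB_kf c) ξ = FSB_kh c ξ := by
  rw [Real.fourier_real_eq_integral_exp_smul]
  have h1 : ∀ v : ℝ, Complex.exp (↑(-2 * π * v * ξ) * Complex.I) • FSB_kf c v =
      Set.indicator (Set.Ioi 0) (fun v : ℝ => Complex.exp ((-((c : ℂ) + 2 * π * ξ * Complex.I)) * v) -
        Complex.exp ((-((c : ℂ) + 1 + 2 * π * ξ * Complex.I)) * v)) v := by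
    intro v
    unfold FSB_kf
    by_cases hv : v ∈ Set.Ioi (0 : ℝ)
    · rw [Set.indicator_of_mem hv, Set.indicator_of_mem hv, smul_eq_mul, mul_sub,
        ← Complex.exp_add, ← Complex.exp_add]
      congr 2 <;> (push_cast; ring)
    · rw [Set.indicator_of_notMem hv, Set.indicator_of_notMem hv, smul_zero]
  simp_rw [h1]
  rw [integral_indicator measurableSet_Ioi]
  have r1 : (-((c : ℂ) + 2 * π * ξ * Complex.I)).re < 0 := by
    simp; linarith
  have r2 : (-((c : ℂ) + 1 + 2 * π * ξ * Complex.I)).re < 0 := by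
    simp; linarith
  rw [integral_sub (integrableOn_exp_mul_complex_Ioi r1 0) (integrableOn_exp_mul_complex_Ioi r2 0),
    integral_exp_mul_complex_Ioi r1, integral_exp_mul_complex_Ioi r2]
  have n1 : ((c : ℂ) + 2 * π * ξ * Complex.I) ≠ 0 := by
    intro h; rw [h] at r1; simp at r1
  have n2 : ((c : ℂ) + 1 + 2 * π * ξ * Complex.I) ≠ 0 := by
    intro h; rw [h] at r2; simp at r2
  unfold FSB_kh
  simp only [Complex.ofReal_zero, mul_zero, Complex.exp_zero]
  field_simp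
  ring

private lemma FSB_kh_norm (c : ℝ) (hc : 1 ≤ c) (ξ : ℝ) : ‖FSB_kh c ξ‖ ≤ (1 + ξ ^ 2)⁻¹ := by
  unfold FSB_kh
  rw [norm_div, norm_one, one_div, norm_mul]
  have h1 : √(1 + ξ ^ 2) ≤ ‖((c : ℂ) + 2 * π * ξ * Complex.I)‖ := by
    rw [Complex.norm_eq_sqrt_sq_add_sq]
    apply Real.sqrt_le_sqrt
    simp
    have : 1 ≤ c ^ 2 := by nlinarith
    have : ξ ^ 2 ≤ (2 * π * ξ) ^ 2 := by
      have := Real.pi_gt_three
      have h1 : (1 : ℝ) ≤ (2 * π) ^ 2 := by nlinarith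
      rw [mul_pow]
      exact le_mul_of_one_le_left (sq_nonneg ξ) h1
    linarith
  have h2 : √(1 + ξ ^ 2) ≤ ‖((c : ℂ) + 1 + 2 * π * ξ * Complex.I)‖ := by
    rw [Complex.norm_eq_sqrt_sq_add_sq]
    apply Real.sqrt_le_sqrt
    simp
    have : 1 ≤ (c + 1) ^ 2 := by nlinarith
    have : ξ ^ 2 ≤ (2 * π * ξ) ^ 2 := by
      have := Real.pi_gt_three
      have h1 : (1 : ℝ) ≤ (2 * π) ^ 2 := by nlinarith
      rw [mul_pow]
      exact le_mul_of_one_le_left (sq_nonneg ξ) h1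
    linarith
  have h3 : (1 + ξ ^ 2) = √(1 + ξ ^ 2) * √(1 + ξ ^ 2) := (Real.mul_self_sqrt (by positivity)).symm
  apply inv_anti₀ (by positivity)
  rw [h3]
  exact mul_le_mul h1 h2 (Real.sqrt_nonneg _) (norm_nonneg _)

private lemma FSB_kh_cont (c : ℝ) (hc : 0 < c) : Continuous (FSB_kh c) := by
  unfold FSB_kh
  apply Continuous.div continuous_const (by fun_prop)
  intro ξ h
  rcases mul_eq_zero.1 h with h | h <;> have := congrArg Complex.re h <;> simp at this <;> linarith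

private lemma FSB_kh_int (c : ℝ) (hc : 1 ≤ c) : Integrable (FSB_kh c) := by
  refine Integrable.mono' integrable_inv_one_add_sq (FSB_kh_cont c (by linarith)).aestronglyMeasurable ?_
  exact Filter.Eventually.of_forall fun ξ => FSB_kh_norm c hc ξ

/-- The FSB_kernel identity. -/
private lemma FSB_kernel (c : ℝ) (hc : 1 ≤ c) (v : ℝ) :
    ∫ ξ : ℝ, Complex.exp (↑(2 * π * ξ * v) * Complex.I) * FSB_kh c ξ = FSB_kf c v := by
  have hF : 𝓕 (FSB_kf c) = FSB_kh c := funext fun ξ => FSB_kf_four c (by linarith) ξ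
  have h := (FSB_kf_cont c).fourierInv_fourier_eq (FSB_kf_int c (by linarith)) (by
    rw [hF]; exact FSB_kh_int c hc)
  rw [hF] at h
  have h2 := congrFun h v
  rw [Real.fourierInv_eq'] at h2
  rw [← h2]
  congr 1
  ext ξ
  rw [smul_eq_mul]
  congr 2
  simp
  ring

private lemma FSB_term_eq (b : ℕ → ℂ) (σ ξ : ℝ) {n : ℕ} (hn : 0 < n) :
    LSeries.term b ((σ : ℂ) + 2 * π * ξ * Complex.I) n =
      b n * ((n : ℝ) ^ (-σ) : ℝ) * Complex.exp (↑(2 * π * ξ * (-Real.log n)) * Complex.I) := by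
  have hn' : (n : ℂ) ≠ 0 := by exact_mod_cast hn.ne'
  rw [LSeries.term_of_ne_zero hn.ne', div_eq_mul_inv, ← Complex.cpow_neg, mul_assoc (b n)]
  congr 1
  rw [neg_add, Complex.cpow_add _ _ hn', Complex.ofReal_cpow (by positivity)]
  congr 1
  · push_cast; rfl
  · rw [Complex.cpow_def_of_ne_zero hn', Complex.natCast_log.symm]
    congr 1
    push_cast
    ring

private lemma FSB_kf_val (σ y : ℝ) (hy : 0 < y) {n : ℕ} (hn : 0 < n) :
    ((n : ℝ) ^ (-σ) : ℝ) * FSB_kf σ (Real.log y - Real.log n) =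
      if n ≤ ⌊y⌋₊ then ((y ^ (-σ) * (1 - n / y) : ℝ) : ℂ) else 0 := by
  have hn' : (0 : ℝ) < n := by exact_mod_cast hn
  unfold FSB_kf
  split_ifs with h
  · have hny : (n : ℝ) ≤ y := (Nat.le_floor_iff hy.le).1 h
    rcases hny.eq_or_lt with h1 | h1
    · rw [h1, sub_self, Set.indicator_of_notMem (by simp)]
      simp [div_self hy.ne']
    · rw [Set.indicator_of_mem (by
        simpa using Real.log_lt_log hn' h1)]
      rw [← Real.log_div hy.ne' hn'.ne']
      have e1 : Complex.exp (((-σ : ℝ) : ℂ) * (Real.log (y / n) : ℝ)) = (((y / n) ^ (-σ) : ℝ) : ℂ) := by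
        rw [Real.rpow_def_of_pos (by positivity)]
        push_cast
        ring_nf
      have e2 : Complex.exp (((-(σ + 1) : ℝ) : ℂ) * (Real.log (y / n) : ℝ)) =
          (((y / n) ^ (-(σ + 1)) : ℝ) : ℂ) := by
        rw [Real.rpow_def_of_pos (by positivity)]
        push_cast
        ring_nf
      rw [e1, e2, ← Complex.ofReal_sub, ← Complex.ofReal_mul]
      congr 1
      rw [neg_add, Real.rpow_add (by positivity), Real.rpow_neg_one,
        Real.div_rpow hy.le hn'.le]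
      have : (n : ℝ) ^ (-σ) ≠ 0 := (Real.rpow_pos_of_pos hn' _).ne'
      field_simp
  · have hny : y < n := by
      by_contra hcon
      exact h ((Nat.le_floor_iff hy.le).2 (not_lt.1 hcon))
    rw [Set.indicator_of_notMem (by
      simpa using (Real.log_lt_log hy hny).le)]
    simp

/-- The representation of the smoothed sum. -/
private lemma FSB_rep (b : ℕ → ℂ) (σ : ℝ) (hσ : 1 ≤ σ)
    (hb : LSeriesSummable b (σ : ℂ)) (y : ℝ) (hy : 0 < y) :
    ∑ n ∈ Ioc 0 ⌊y⌋₊, b n * (1 - n / y : ℝ) = (y ^ σ : ℝ) *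
      ∫ ξ : ℝ, Complex.exp (↑(2 * π * ξ * Real.log y) * Complex.I) * FSB_kh σ ξ *
        LSeries b ((σ : ℂ) + 2 * π * ξ * Complex.I) := by
  set F : ℕ → ℝ → ℂ := fun n ξ => Complex.exp (↑(2 * π * ξ * Real.log y) * Complex.I) * FSB_kh σ ξ *
    LSeries.term b ((σ : ℂ) + 2 * π * ξ * Complex.I) n with hF
  have hnorm : ∀ n ξ, ‖F n ξ‖ = ‖FSB_kh σ ξ‖ * ‖LSeries.term b (σ : ℂ) n‖ := by
    intro n ξ
    rw [hF]
    simp only [norm_mul, Complex.norm_exp_ofReal_mul_I, one_mul]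
    congr 1
    rw [LSeries.norm_term_eq, LSeries.norm_term_eq]
    simp
  have hcont : ∀ n, Continuous (F n) := by
    intro n
    rcases Nat.eq_zero_or_pos n with h | h
    · subst h
      simp only [hF, LSeries.term_zero, mul_zero]
      exact continuous_const
    · simp only [hF]
      simp_rw [FSB_term_eq b σ _ h]
      have := FSB_kh_cont σ (by linarith)
      fun_prop
  have hint : ∀ n, Integrable (F n) := by
    intro n
    refine Integrable.mono' ((FSB_kh_int σ hσ).norm.mul_const ‖LSeries.term b (σ : ℂ) n‖)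
      (hcont n).aestronglyMeasurable (Filter.Eventually.of_forall fun ξ => ?_)
    rw [hnorm]
  have hsum : Summable fun n => ∫ ξ, ‖F n ξ‖ := by
    simp_rw [hnorm, integral_mul_const]
    exact hb.norm.mul_left _
  have h1 := hasSum_integral_of_summable_integral_norm hint hsum
  have h2 : ∀ ξ, ∑' n, F n ξ = Complex.exp (↑(2 * π * ξ * Real.log y) * Complex.I) * FSB_kh σ ξ *
      LSeries b ((σ : ℂ) + 2 * π * ξ * Complex.I) := by
    intro ξ
    simp only [hF]
    rw [tsum_mul_left]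
    rfl
  simp_rw [h2] at h1
  have h3 : ∀ n, ∫ ξ, F n ξ = if n ∈ Ioc 0 ⌊y⌋₊ then b n * ((y ^ (-σ) * (1 - n / y) : ℝ) : ℂ) else 0 := by
    intro n
    rcases Nat.eq_zero_or_pos n with h | h
    · subst h
      simp [hF]
    · have e : ∀ ξ, F n ξ = (b n * ((n : ℝ) ^ (-σ) : ℝ)) *
          (Complex.exp (↑(2 * π * ξ * (Real.log y - Real.log n)) * Complex.I) * FSB_kh σ ξ) := by
        intro ξ
        simp only [hF]
        rw [FSB_term_eq b σ ξ h]
        have : Complex.exp (↑(2 * π * ξ * (Real.log y - Real.log n)) * Complex.I) =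
            Complex.exp (↑(2 * π * ξ * Real.log y) * Complex.I) *
            Complex.exp (↑(2 * π * ξ * (-Real.log n)) * Complex.I) := by
          rw [← Complex.exp_add]
          congr 1
          push_cast
          ring
        rw [this]
        ring
      simp_rw [e]
      rw [integral_const_mul, FSB_kernel σ hσ, mul_assoc, FSB_kf_val σ y hy h]
      by_cases hn : n ≤ ⌊y⌋₊
      · rw [if_pos hn, if_pos (mem_Ioc.2 ⟨h, hn⟩)]
      · rw [if_neg hn, if_neg (by simp [hn]), mul_zero]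
  simp_rw [h3] at h1
  have h4 := (hasSum_sum_of_ne_finset_zero (s := Ioc 0 ⌊y⌋₊) (f := fun n =>
    if n ∈ Ioc 0 ⌊y⌋₊ then b n * ((y ^ (-σ) * (1 - n / y) : ℝ) : ℂ) else 0) (by
      intro n hn
      rw [if_neg hn])).unique h1
  rw [← h4, mul_sum]
  apply sum_congr rfl
  intro n hn
  rw [if_pos hn]
  have : (y ^ σ) * (y ^ (-σ)) = 1 := by
    rw [← Real.rpow_add hy, add_neg_cancel, Real.rpow_zero]
  have h5 : ((y ^ σ : ℝ) : ℂ) * ((y ^ (-σ) : ℝ) : ℂ) = 1 := by
    rw [← Complex.ofReal_mul, this, Complex.ofReal_one]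
  push_cast at h5 ⊢
  linear_combination (-(b n * (1 - (n : ℂ) / y))) * h5

private lemma FSB_ind_le (ξ R : ℝ) (hR : 1 ≤ R) (h : R < |ξ|) :
    (1 + ξ ^ 2)⁻¹ ≤ 2 / R ^ 2 * (1 + (ξ / R) ^ 2)⁻¹ := by
  have h1 : R ^ 2 ≤ ξ ^ 2 := by
    rw [← sq_abs ξ]
    exact pow_le_pow_left₀ (by linarith) h.le 2
  have hR0 : 0 < R := by linarith
  rw [div_pow, div_mul_eq_mul_div, ← div_eq_mul_inv, div_div, inv_eq_one_div,
    div_le_div_iff₀ (by positivity) (by positivity)]
  have : R ^ 2 * (1 + ξ ^ 2 / R ^ 2) = R ^ 2 + ξ ^ 2 := by field_simp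
  nlinarith

private lemma FSB_int_bound (σ : ℝ) (hσ : 1 ≤ σ) (G : ℝ → ℂ) (R U V : ℝ) (hR : 1 ≤ R) (hU : 0 ≤ U)
    (hV : 0 ≤ V) (h1 : ∀ ξ, |ξ| ≤ R → ‖G ξ‖ ≤ U) (h2 : ∀ ξ, ‖G ξ‖ ≤ V) (v : ℝ) :
    ‖∫ ξ : ℝ, Complex.exp (↑(2 * π * ξ * v) * Complex.I) * FSB_kh σ ξ * G ξ‖ ≤
      π * U + 2 * π * V / R := by
  have hR0 : 0 < R := by linarith
  have hg1 : Integrable fun ξ : ℝ => U * (1 + ξ ^ 2)⁻¹ := integrable_inv_one_add_sq.const_mul U
  have hg2 : Integrable fun ξ : ℝ => V * (2 / R ^ 2) * (1 + (ξ / R) ^ 2)⁻¹ :=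
    (integrable_inv_one_add_sq.comp_div hR0.ne').const_mul _
  have hval : ∫ ξ : ℝ, (U * (1 + ξ ^ 2)⁻¹ + V * (2 / R ^ 2) * (1 + (ξ / R) ^ 2)⁻¹) =
      π * U + 2 * π * V / R := by
    rw [integral_add hg1 hg2, integral_const_mul, integral_const_mul,
      integral_univ_inv_one_add_sq,
      Measure.integral_comp_div (fun ξ : ℝ => (1 + ξ ^ 2)⁻¹) R, integral_univ_inv_one_add_sq,
      abs_of_pos hR0, smul_eq_mul]
    field_simp
  rw [← hval]
  apply norm_integral_le_of_norm_le (hg1.add hg2)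
  refine Filter.Eventually.of_forall fun ξ => ?_
  rw [norm_mul, norm_mul, Complex.norm_exp_ofReal_mul_I, one_mul]
  have hk := FSB_kh_norm σ hσ ξ
  have hp : (0 : ℝ) < (1 + ξ ^ 2)⁻¹ := by positivity
  have hp2 : (0 : ℝ) < (1 + (ξ / R) ^ 2)⁻¹ := by positivity
  by_cases hξ : |ξ| ≤ R
  · calc ‖FSB_kh σ ξ‖ * ‖G ξ‖ ≤ (1 + ξ ^ 2)⁻¹ * U := mul_le_mul hk (h1 ξ hξ) (norm_nonneg _) hp.le
      _ ≤ U * (1 + ξ ^ 2)⁻¹ + V * (2 / R ^ 2) * (1 + (ξ / R) ^ 2)⁻¹ := by
        have : 0 ≤ V * (2 / R ^ 2) * (1 + (ξ / R) ^ 2)⁻¹ := by positivity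
        linarith [mul_comm U (1 + ξ ^ 2)⁻¹]
  · have h3 := FSB_ind_le ξ R hR (not_le.1 hξ)
    calc ‖FSB_kh σ ξ‖ * ‖G ξ‖ ≤ (1 + ξ ^ 2)⁻¹ * V := mul_le_mul hk (h2 ξ) (norm_nonneg _) hp.le
      _ ≤ (2 / R ^ 2 * (1 + (ξ / R) ^ 2)⁻¹) * V := mul_le_mul_of_nonneg_right h3 hV
      _ ≤ U * (1 + ξ ^ 2)⁻¹ + V * (2 / R ^ 2) * (1 + (ξ / R) ^ 2)⁻¹ := by
        have : 0 ≤ U * (1 + ξ ^ 2)⁻¹ := by positivity
        nlinarith

/-- Abel's inequality. -/
private lemma FSB_abel (a : ℕ → ℂ) (w : ℕ → ℝ) (Y X : ℕ) (hw : ∀ n, Y < n → n < X → w (n + 1) ≤ w n)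
    (hw0 : ∀ n, Y < n → 0 ≤ w n) (E : ℝ) (hE : ∀ m, Y ≤ m → m ≤ X → ‖∑ n ∈ Ioc Y m, a n‖ ≤ E)
    (hYX : Y < X) : ‖∑ n ∈ Ioc Y X, a n * w n‖ ≤ E * w (Y + 1) := by
  have key : ∀ m, Y < m → m ≤ X → ∑ n ∈ Ioc Y m, a n * w n =
      w m * ∑ n ∈ Ioc Y m, a n + ∑ k ∈ Ioo Y m, ((w k - w (k + 1) : ℝ) : ℂ) * ∑ n ∈ Ioc Y k, a n := by
    intro m hm
    induction m, hm using Nat.le_induction with
    | base =>
      intro _
      have : Ioo Y (Y + 1) = ∅ := by
        ext k; simp only [mem_Ioo, Finset.notMem_empty, iff_false]; omega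
      rw [this, Nat.Ioc_succ_singleton]
      simp [mul_comm]
    | succ m hm ih =>
      intro hmX
      have hm' : Y < m := hm
      rw [← Finset.sum_Ioc_consecutive _ hm'.le (Nat.le_succ m), Nat.Ioc_succ_singleton,
        sum_singleton, ih (by omega), ← Finset.sum_Ioc_consecutive a hm'.le (Nat.le_succ m),
        Nat.Ioc_succ_singleton, sum_singleton]
      have h3 : Ioo Y (m + 1) = insert m (Ioo Y m) := by
        ext k; simp; omega
      rw [h3, sum_insert (by simp)]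
      push_cast
      ring
  rw [key X hYX le_rfl]
  have hE0 : 0 ≤ E := (norm_nonneg _).trans (hE Y le_rfl hYX.le)
  have tel : ∀ m, Y < m → ∑ k ∈ Ioo Y m, (w k - w (k + 1)) = w (Y + 1) - w m := by
    intro m hm
    induction m, hm using Nat.le_induction with
    | base =>
      have : Ioo Y (Y + 1) = ∅ := by
        ext k; simp only [mem_Ioo, Finset.notMem_empty, iff_false]; omega
      rw [this]; simp
    | succ m hm ih =>
      have h3 : Ioo Y (m + 1) = insert m (Ioo Y m) := by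
        ext k; simp; omega
      rw [h3, sum_insert (by simp), ih]
      ring
  calc ‖(w X : ℂ) * ∑ n ∈ Ioc Y X, a n + ∑ k ∈ Ioo Y X, ((w k - w (k + 1) : ℝ) : ℂ) *
          ∑ n ∈ Ioc Y k, a n‖
      ≤ w X * E + ∑ k ∈ Ioo Y X, (w k - w (k + 1)) * E := by
        refine (norm_add_le _ _).trans (add_le_add ?_ ((norm_sum_le _ _).trans (sum_le_sum ?_)))
        · rw [norm_mul, Complex.norm_real, Real.norm_of_nonneg (hw0 X hYX)]
          exact mul_le_mul_of_nonneg_left (hE X hYX.le le_rfl) (hw0 X hYX)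
        · intro k hk
          rw [mem_Ioo] at hk
          have : 0 ≤ w k - w (k + 1) := sub_nonneg.2 (hw k hk.1 hk.2)
          rw [norm_mul, Complex.norm_real, Real.norm_of_nonneg this]
          exact mul_le_mul_of_nonneg_left (hE k hk.1.le hk.2.le) this
    _ = E * w (Y + 1) := by
        rw [← sum_mul, tel X hYX]
        ring
/-! ### the divisor function -/

private lemma FSB_div (δ : ℝ) (hδ : 0 < δ) :
    Summable (fun n : ℕ => (#n.divisors : ℝ) / (n : ℝ) ^ (1 + δ)) ∧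
    ∑' n : ℕ, (#n.divisors : ℝ) / (n : ℝ) ^ (1 + δ) ≤ (2 / δ + 1) ^ 2 := by
  set s : ℂ := ((1 + δ : ℝ) : ℂ) with hs
  have hre : s.re = 1 + δ := by rw [hs]; exact Complex.ofReal_re _
  have ha : ∀ n : ℕ, ‖(fun _ : ℕ => (1 : ℂ)) n‖ ≤ Real.log n ^ 0 := by
    intro n
    simp
  have hsum := Pool.Agent.helper39.MT.h95_summable 0 ha (s := s) (by rw [hre]; linarith)
  have hb := Pool.Agent.helper39.MT.h95_LSeries_le 0 ha (s := s) (δ := δ) hδ hre
  have hc := LSeriesSummable.convolution hsum hsum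
  have he := LSeries_convolution' hsum hsum
  have hval : ∀ n : ℕ, LSeries.term (LSeries.convolution (fun _ : ℕ => (1 : ℂ)) (fun _ : ℕ => (1 : ℂ))) s n =
      (((#n.divisors : ℝ) / (n : ℝ) ^ (1 + δ) : ℝ) : ℂ) := by
    intro n
    rcases Nat.eq_zero_or_pos n with h | h
    · subst h
      simp
    · rw [LSeries.term_of_ne_zero h.ne', LSeries.convolution_def]
      have h1 : ∑ p ∈ n.divisorsAntidiagonal, ((1 : ℂ) * 1) = (#n.divisors : ℂ) := by
        rw [Nat.sum_divisorsAntidiagonal (fun _ _ => ((1 : ℂ) * 1))]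
        simp
      show (∑ p ∈ n.divisorsAntidiagonal, ((1 : ℂ) * 1)) / (n : ℂ) ^ s = _
      rw [h1, hs, Complex.ofReal_div, Complex.ofReal_cpow (by positivity)]
      push_cast
      rfl
  have h2 : Summable (fun n : ℕ => (((#n.divisors : ℝ) / (n : ℝ) ^ (1 + δ) : ℝ) : ℂ)) := by
    have : LSeries.term (LSeries.convolution (fun _ : ℕ => (1 : ℂ)) (fun _ : ℕ => (1 : ℂ))) s =
        fun n : ℕ => (((#n.divisors : ℝ) / (n : ℝ) ^ (1 + δ) : ℝ) : ℂ) := funext hval
    rw [← this]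
    exact hc
  have h3 : Summable (fun n : ℕ => (#n.divisors : ℝ) / (n : ℝ) ^ (1 + δ)) := by
    exact_mod_cast h2
  refine ⟨h3, ?_⟩
  have h4 : ((∑' n : ℕ, (#n.divisors : ℝ) / (n : ℝ) ^ (1 + δ) : ℝ) : ℂ) =
      LSeries (fun _ : ℕ => (1 : ℂ)) s * LSeries (fun _ : ℕ => (1 : ℂ)) s := by
    rw [← he, Complex.ofReal_tsum]
    unfold LSeries
    exact tsum_congr fun n => (hval n).symm
  have h5 : ‖LSeries (fun _ : ℕ => (1 : ℂ)) s‖ ≤ 2 / δ + 1 := by
    refine (norm_tsum_le_tsum_norm hsum.norm).trans ?_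
    simpa using hb
  have h6 : 0 ≤ ∑' n : ℕ, (#n.divisors : ℝ) / (n : ℝ) ^ (1 + δ) := tsum_nonneg fun n => by positivity
  have h7 := congrArg norm h4
  rw [Complex.norm_real, Real.norm_of_nonneg h6, norm_mul] at h7
  rw [h7, sq]
  exact mul_le_mul h5 h5 (norm_nonneg _) (by positivity)

private lemma FSB_pow (K : ℕ) (L : ℝ) (hL : 0 < L) (n : ℕ) (hn : 0 < n) :
    Real.log n ^ K ≤ (K.factorial : ℝ) * (2 * L) ^ K * (n : ℝ) ^ (1 / (2 * L)) := by
  have hn' : (0 : ℝ) < n := by exact_mod_cast hn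
  have hl : 0 ≤ Real.log n := Real.log_natCast_nonneg n
  have h1 := Real.pow_div_factorial_le_exp (x := Real.log n / (2 * L)) (by positivity) K
  have h2 : Real.exp (Real.log n / (2 * L)) = (n : ℝ) ^ (1 / (2 * L)) := by
    rw [Real.rpow_def_of_pos hn']
    congr 1
    ring
  rw [h2, div_pow, div_div, div_le_iff₀ (by positivity)] at h1
  calc Real.log n ^ K ≤ _ := h1
    _ = _ := by ring

private lemma FSB_V (K : ℕ) (L : ℝ) (hL : 1 ≤ L) (b : ℕ → ℂ)
    (hb : ∀ n, ‖b n‖ ≤ (#n.divisors : ℝ) * Real.log n ^ K) :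
    LSeriesSummable b ((1 + 1 / L : ℝ) : ℂ) ∧
    ∀ ξ : ℝ, ‖LSeries b (((1 + 1 / L : ℝ) : ℂ) + 2 * π * ξ * Complex.I)‖ ≤
      ((K.factorial : ℝ) * 2 ^ K * 25) * L ^ (K + 2) := by
  have hL0 : 0 < L := by linarith
  obtain ⟨h1, h2⟩ := FSB_div (1 / (2 * L)) (by positivity)
  have key : ∀ s : ℂ, s.re = 1 + 1 / L → ∀ n : ℕ, ‖LSeries.term b s n‖ ≤
      ((K.factorial : ℝ) * (2 * L) ^ K) * ((#n.divisors : ℝ) / (n : ℝ) ^ (1 + 1 / (2 * L))) := by
    intro s hs n
    rcases Nat.eq_zero_or_pos n with h | h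
    · subst h
      simp
    · have hn' : (0 : ℝ) < n := by exact_mod_cast h
      rw [LSeries.norm_term_eq, if_neg h.ne', hs]
      have h3 : (n : ℝ) ^ (1 + 1 / L) = (n : ℝ) ^ (1 + 1 / (2 * L)) * (n : ℝ) ^ (1 / (2 * L)) := by
        rw [← Real.rpow_add hn']
        congr 1
        field_simp
        ring
      rw [h3, div_le_iff₀ (by positivity)]
      calc ‖b n‖ ≤ (#n.divisors : ℝ) * Real.log n ^ K := hb n
        _ ≤ (#n.divisors : ℝ) * ((K.factorial : ℝ) * (2 * L) ^ K * (n : ℝ) ^ (1 / (2 * L))) :=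
            mul_le_mul_of_nonneg_left (FSB_pow K L hL0 n h) (by positivity)
        _ = _ := by
            have : (n : ℝ) ^ (1 + 1 / (2 * L)) ≠ 0 := (Real.rpow_pos_of_pos hn' _).ne'
            field_simp
  have hs1 : ∀ s : ℂ, s.re = 1 + 1 / L → Summable fun n => ‖LSeries.term b s n‖ := by
    intro s hs
    exact Summable.of_nonneg_of_le (fun n => norm_nonneg _) (key s hs) (h1.mul_left _)
  refine ⟨(hs1 _ (Complex.ofReal_re _)).of_norm, ?_⟩
  intro ξ
  have hre : (((1 + 1 / L : ℝ) : ℂ) + 2 * π * ξ * Complex.I).re = 1 + 1 / L := by simp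
  have h4 := hs1 _ hre
  refine (norm_tsum_le_tsum_norm h4).trans ?_
  calc ∑' n, ‖LSeries.term b (((1 + 1 / L : ℝ) : ℂ) + 2 * π * ξ * Complex.I) n‖
      ≤ ∑' n : ℕ, ((K.factorial : ℝ) * (2 * L) ^ K) * ((#n.divisors : ℝ) / (n : ℝ) ^ (1 + 1 / (2 * L))) :=
        h4.tsum_le_tsum (key _ hre) (h1.mul_left _)
    _ = ((K.factorial : ℝ) * (2 * L) ^ K) * ∑' n : ℕ, ((#n.divisors : ℝ) / (n : ℝ) ^ (1 + 1 / (2 * L))) :=
        tsum_mul_left
    _ ≤ ((K.factorial : ℝ) * (2 * L) ^ K) * (5 * L) ^ 2 := by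
        apply mul_le_mul_of_nonneg_left _ (by positivity)
        refine h2.trans ?_
        have : 2 / (1 / (2 * L)) + 1 ≤ 5 * L := by
          have h5 : 2 / (1 / (2 * L)) = 4 * L := by field_simp; ring
          rw [h5]; linarith
        exact pow_le_pow_left₀ (by positivity) this 2
    _ = _ := by rw [mul_pow, mul_pow]; ring

private lemma FSB_card (n D : ℕ) (hn : 0 < n) (hD : n ≤ D ^ 2) :
    #n.divisors ≤ 2 * #{d ∈ Ioc 0 D | d ∣ n} := by
  classical
  have h1 : n.divisors ⊆ {d ∈ Ioc 0 D | d ∣ n} ∪ ({d ∈ Ioc 0 D | d ∣ n}).image (fun d => n / d) := by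
    intro d hd
    have hdn := Nat.dvd_of_mem_divisors hd
    have hd0 : 0 < d := Nat.pos_of_mem_divisors hd
    rw [mem_union]
    by_cases h : d ≤ D
    · left
      exact mem_filter.2 ⟨mem_Ioc.2 ⟨hd0, h⟩, hdn⟩
    · right
      rw [mem_image]
      refine ⟨n / d, mem_filter.2 ⟨mem_Ioc.2 ⟨Nat.div_pos (Nat.le_of_dvd hn hdn) hd0, ?_⟩,
        Nat.div_dvd_of_dvd hdn⟩, Nat.div_div_self hdn hn.ne'⟩
      rw [Nat.div_le_iff_le_mul_add_pred hd0]
      push Not at h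
      nlinarith
  calc #n.divisors ≤ _ := card_le_card h1
    _ ≤ _ := card_union_le _ _
    _ ≤ #{d ∈ Ioc 0 D | d ∣ n} + #{d ∈ Ioc 0 D | d ∣ n} := Nat.add_le_add_left card_image_le _
    _ = _ := by ring

private lemma FSB_mult (m h d : ℕ) (hd : 0 < d) :
    (#{n ∈ Ioc m (m + h) | d ∣ n} : ℝ) ≤ h / d + 1 := by
  classical
  have h1 : #{n ∈ Ioc m (m + h) | d ∣ n} + m / d = (m + h) / d := by
    rw [← Nat.Ioc_filter_dvd_card_eq_div m d, ← Nat.Ioc_filter_dvd_card_eq_div (m + h) d, add_comm,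
      ← card_union_of_disjoint]
    · congr 1
      rw [← filter_union, Ioc_union_Ioc_eq_Ioc (Nat.zero_le m) (Nat.le_add_right m h)]
    · apply disjoint_filter_filter
      rw [Finset.disjoint_left]
      intro a ha hb
      rw [mem_Ioc] at ha hb
      omega
  have h2 : (((m + h) / d : ℕ) : ℝ) ≤ ((m + h : ℕ) : ℝ) / d := Nat.cast_div_le
  have h3 : ((m : ℕ) : ℝ) / d < ((m / d : ℕ) : ℝ) + 1 := by
    rw [div_lt_iff₀ (by exact_mod_cast hd)]
    have h5 := Nat.lt_mul_div_succ m hd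
    rw [mul_comm] at h5
    exact_mod_cast h5
  have h4 : (#{n ∈ Ioc m (m + h) | d ∣ n} : ℝ) + ((m / d : ℕ) : ℝ) = (((m + h) / d : ℕ) : ℝ) := by
    exact_mod_cast h1
  push_cast at h2
  rw [add_div] at h2
  linarith

private lemma FSB_divs (m h D : ℕ) (hD : m + h ≤ D ^ 2) :
    ∑ n ∈ Ioc m (m + h), (#n.divisors : ℝ) ≤ 2 * (h * (1 + Real.log D) + D) := by
  classical
  calc ∑ n ∈ Ioc m (m + h), (#n.divisors : ℝ)
      ≤ ∑ n ∈ Ioc m (m + h), 2 * ∑ d ∈ Ioc 0 D, (if d ∣ n then (1 : ℝ) else 0) := by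
        apply sum_le_sum
        intro n hn
        rw [mem_Ioc] at hn
        have h1 := FSB_card n D (by omega) (by omega)
        rw [← sum_filter, sum_const, nsmul_eq_mul, mul_one]
        exact_mod_cast h1
    _ = 2 * ∑ d ∈ Ioc 0 D, ∑ n ∈ Ioc m (m + h), (if d ∣ n then (1 : ℝ) else 0) := by
        rw [← mul_sum, sum_comm]
    _ ≤ 2 * ∑ d ∈ Ioc 0 D, ((h : ℝ) * (d : ℝ)⁻¹ + 1) := by
        apply mul_le_mul_of_nonneg_left _ (by norm_num)
        apply sum_le_sum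
        intro d hd
        rw [mem_Ioc] at hd
        rw [← sum_filter, sum_const, nsmul_eq_mul, mul_one, ← div_eq_mul_inv]
        exact FSB_mult m h d hd.1
    _ = 2 * (h * ∑ d ∈ Ioc 0 D, (d : ℝ)⁻¹ + D) := by
        rw [sum_add_distrib, ← mul_sum, sum_const, Nat.card_Ioc, nsmul_eq_mul]
        simp
    _ ≤ 2 * (h * (1 + Real.log D) + D) := by
        have h1 : ∑ d ∈ Ioc 0 D, (d : ℝ)⁻¹ ≤ 1 + Real.log D := by
          have h2 := harmonic_le_one_add_log D
          rw [harmonic_eq_sum_Icc] at h2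
          push_cast at h2
          exact h2
        have h0 : (0 : ℝ) ≤ h := Nat.cast_nonneg h
        nlinarith [mul_le_mul_of_nonneg_left h1 h0]

private lemma FSB_smooth (m K : ℕ) (hm : 1 ≤ m) : ∃ (C x₀ : ℝ), 0 < C ∧ ∀ x : ℝ, x₀ ≤ x →
    ∀ b : ℕ → ℂ, (∀ n, ‖b n‖ ≤ (#n.divisors : ℝ) * Real.log n ^ K) →
    (∀ t : ℝ, |t| ≤ Real.log x ^ m →
      ‖LSeries b (1 + 1 / (Real.log x : ℂ) + t * Complex.I)‖ ≤ Real.log x ^ K / Real.log x ^ m) →
    ∀ y : ℝ, 0 < y → y ≤ 2 * x →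
    ‖∑ n ∈ Ioc 0 ⌊y⌋₊, b n * (1 - n / y : ℝ)‖ ≤ C * y * (Real.log x ^ (K + 2) / Real.log x ^ m) := by
  set V₁ : ℝ := (K.factorial : ℝ) * 2 ^ K * 25 with hV₁
  refine ⟨6 * (π + 4 * π ^ 2 * V₁), Real.exp (2 * π), by positivity, ?_⟩
  intro x hx b hb hF y hy0 hy
  set L := Real.log x with hL
  have hx0 : 0 < x := (Real.exp_pos _).trans_le hx
  have hL2 : 2 * π ≤ L := by
    rw [hL, Real.le_log_iff_exp_le hx0]; exact hx
  have hpi := Real.pi_gt_three
  have hL1 : 1 ≤ L := by linarith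
  have hL0 : 0 < L := by linarith
  obtain ⟨hsum, hV⟩ := FSB_V K L hL1 b hb
  rw [← hV₁] at hV
  set σ : ℝ := 1 + 1 / L with hσ
  have hσ1 : 1 < σ := by rw [hσ]; have : 0 < 1 / L := by positivity
                         linarith
  set R : ℝ := L ^ m / (2 * π) with hR
  have hR1 : 1 ≤ R := by
    rw [hR, le_div_iff₀ (by positivity), one_mul]
    calc 2 * π ≤ L := hL2
      _ = L ^ 1 := (pow_one L).symm
      _ ≤ L ^ m := pow_le_pow_right₀ hL1 hm
  have hU : ∀ ξ : ℝ, |ξ| ≤ R → ‖LSeries b ((σ : ℂ) + 2 * π * ξ * Complex.I)‖ ≤ L ^ K / L ^ m := by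
    intro ξ hξ
    have h1 := hF (2 * π * ξ) (by
      rw [abs_mul, abs_of_pos (by positivity : (0 : ℝ) < 2 * π)]
      rw [hR, le_div_iff₀ (by positivity)] at hξ
      linarith)
    have e : (1 + 1 / (L : ℂ) + ((2 * π * ξ : ℝ) : ℂ) * Complex.I) =
        ((σ : ℂ) + 2 * π * ξ * Complex.I) := by
      rw [hσ]; push_cast; ring
    rwa [e] at h1
  have hmain := FSB_int_bound σ hσ1.le (fun ξ => LSeries b ((σ : ℂ) + 2 * π * ξ * Complex.I)) R
    (L ^ K / L ^ m) (V₁ * L ^ (K + 2)) hR1 (by positivity) (by positivity) hU hV (Real.log y)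
  rw [FSB_rep b σ hσ1.le hsum y hy0, norm_mul, Complex.norm_real,
    Real.norm_of_nonneg (Real.rpow_nonneg hy0.le _)]
  have h5 : 2 * π * (V₁ * L ^ (K + 2)) / R = 4 * π ^ 2 * V₁ * (L ^ (K + 2) / L ^ m) := by
    rw [hR]; field_simp; ring
  rw [h5] at hmain
  have h6 : y ^ σ ≤ 6 * y := by
    rw [hσ, Real.rpow_add hy0, Real.rpow_one, mul_comm]
    apply mul_le_mul_of_nonneg_right _ hy0.le
    calc y ^ (1 / L) ≤ (2 * x) ^ (1 / L) := Real.rpow_le_rpow hy0.le hy (by positivity)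
      _ = 2 ^ (1 / L) * x ^ (1 / L) := Real.mul_rpow (by norm_num) hx0.le
      _ ≤ 2 * 3 := by
        apply mul_le_mul _ _ (Real.rpow_nonneg hx0.le _) (by norm_num)
        · calc (2 : ℝ) ^ (1 / L) ≤ 2 ^ (1 : ℝ) :=
              Real.rpow_le_rpow_of_exponent_le (by norm_num) (by
                rw [div_le_one hL0]; exact hL1)
            _ = 2 := Real.rpow_one 2
        · rw [Real.rpow_def_of_pos hx0, ← hL, mul_one_div_cancel hL0.ne']
          linarith [Real.exp_one_lt_d9]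
      _ = 6 := by norm_num
  have h7 : π * (L ^ K / L ^ m) ≤ π * (L ^ (K + 2) / L ^ m) := by
    have h8 : L ^ K ≤ L ^ (K + 2) := pow_le_pow_right₀ hL1 (by omega)
    gcongr
  calc y ^ σ * _ ≤ (6 * y) * (π * (L ^ K / L ^ m) + 4 * π ^ 2 * V₁ * (L ^ (K + 2) / L ^ m)) :=
        mul_le_mul h6 hmain (norm_nonneg _) (by positivity)
    _ ≤ (6 * y) * (π * (L ^ (K + 2) / L ^ m) + 4 * π ^ 2 * V₁ * (L ^ (K + 2) / L ^ m)) := by gcongr
    _ = 6 * (π + 4 * π ^ 2 * V₁) * y * (L ^ (K + 2) / L ^ m) := by ring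

private lemma FSB_large (A : ℕ) : ∃ L₀ : ℝ, ∀ L : ℝ, L₀ ≤ L →
    (A + 2 : ℝ) * Real.log L + 2 ≤ L / 2 := by
  have hlim : ∀ᶠ L : ℝ in Filter.atTop, (A + 2 : ℝ) * Real.log L ≤ L / 4 := by
    have := (Asymptotics.isLittleO_iff.1 Real.isLittleO_log_id_atTop) (show (0 : ℝ) < 1 / (4 * (A + 2)) by positivity)
    filter_upwards [this, Filter.eventually_ge_atTop 1] with L hL hL1
    rw [Real.norm_of_nonneg (Real.log_nonneg hL1), id, Real.norm_of_nonneg (by linarith)] at hL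
    calc (A + 2 : ℝ) * Real.log L ≤ (A + 2 : ℝ) * (1 / (4 * (A + 2)) * L) := by gcongr
      _ = L / 4 := by field_simp
  obtain ⟨L₀, hL₀⟩ := Filter.eventually_atTop.1 hlim
  refine ⟨max L₀ 8, fun L hL => ?_⟩
  have h1 := hL₀ L ((le_max_left _ _).trans hL)
  have h2 : 8 ≤ L := (le_max_right _ _).trans hL
  linarith

private lemma FSB_sharp (A K : ℕ) : ∃ (C x₀ : ℝ), 0 < C ∧ ∀ x : ℝ, x₀ ≤ x → ∀ b : ℕ → ℂ,
    (∀ n, ‖b n‖ ≤ (#n.divisors : ℝ) * Real.log n ^ K) →
    (∀ t : ℝ, |t| ≤ Real.log x ^ (2 * A + 6) →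
      ‖LSeries b (1 + 1 / (Real.log x : ℂ) + t * Complex.I)‖ ≤
        Real.log x ^ K / Real.log x ^ (2 * A + 6)) →
    ∀ m : ℕ, (m : ℝ) ≤ x → ‖∑ n ∈ Ioc 0 m, b n‖ ≤
      C * x * (Real.log x ^ (K + 1) / Real.log x ^ (A + 2)) := by
  obtain ⟨C, x₀, hC, h⟩ := FSB_smooth (2 * A + 6) K (by omega)
  obtain ⟨L₀, hL₀⟩ := FSB_large A
  refine ⟨5 * C + 6 * 2 ^ K, max x₀ (Real.exp (max L₀ 1)), by positivity, ?_⟩
  intro x hx b hb hF m hm
  have hx1 : Real.exp (max L₀ 1) ≤ x := (le_max_right _ _).trans hx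
  have hx0 : 0 < x := (Real.exp_pos _).trans_le hx1
  set L := Real.log x with hL
  have hLm : max L₀ 1 ≤ L := by rw [hL, Real.le_log_iff_exp_le hx0]; exact hx1
  have hL1 : 1 ≤ L := (le_max_right _ _).trans hLm
  have hL0 : 0 < L := by linarith
  have hbig := hL₀ L ((le_max_left _ _).trans hLm)
  rcases Nat.eq_zero_or_pos m with h0 | h0
  · subst h0; simp; positivity
  have hm0 : (0 : ℝ) < m := by exact_mod_cast h0
  have hLA : (1 : ℝ) ≤ L ^ (A + 2) := one_le_pow₀ hL1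
  set η : ℝ := x / L ^ (A + 2) with hη
  have hη0 : 0 < η := by positivity
  have hηx : η ≤ x := div_le_self hx0.le hLA
  -- the size of η
  have hηbig : 2 * Real.sqrt (2 * x) ≤ η := by
    have h1 : Real.log (2 * Real.sqrt (2 * x)) ≤ Real.log η := by
      rw [hη, Real.log_div hx0.ne' (by positivity), Real.log_pow, Real.log_mul (by norm_num) (by positivity),
        Real.log_sqrt (by positivity), Real.log_mul (by norm_num) hx0.ne', ← hL]
      push_cast
      have := Real.log_two_lt_d9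
      linarith
    exact (Real.log_le_log_iff (by positivity) hη0).1 h1
  set D : ℕ := ⌈Real.sqrt (2 * x)⌉₊ with hDdef
  have hx2 : 1 ≤ x := by
    calc (1 : ℝ) ≤ Real.exp (max L₀ 1) := Real.one_le_exp (by positivity)
      _ ≤ x := hx1
  have hsq1 : 1 ≤ Real.sqrt (2 * x) := by
    rw [Real.one_le_sqrt]; linarith
  have hDη : (D : ℝ) ≤ η := by
    have := Nat.ceil_lt_add_one (Real.sqrt_nonneg (2 * x))
    rw [← hDdef] at this
    linarith
  have hD0 : (0 : ℝ) < D := by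
    have h1 : Real.sqrt (2 * x) ≤ D := Nat.le_ceil _
    linarith
  have hDsq : m + ⌊η⌋₊ ≤ D ^ 2 := by
    have h1 : Real.sqrt (2 * x) ≤ D := Nat.le_ceil _
    have h2 : 2 * x ≤ (D : ℝ) ^ 2 := by
      calc 2 * x = Real.sqrt (2 * x) ^ 2 := (Real.sq_sqrt (by positivity)).symm
        _ ≤ _ := pow_le_pow_left₀ (Real.sqrt_nonneg _) h1 2
    have h3 : ((m + ⌊η⌋₊ : ℕ) : ℝ) ≤ (D : ℝ) ^ 2 := by
      push_cast
      linarith [Nat.floor_le hη0.le]
    exact_mod_cast h3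
  have hdivs := FSB_divs m ⌊η⌋₊ D hDsq
  have hdivs2 : ∑ n ∈ Ioc m (m + ⌊η⌋₊), (#n.divisors : ℝ) ≤ 6 * η * L := by
    refine hdivs.trans ?_
    have h1 : Real.log D ≤ L := Real.log_le_log hD0 (hDη.trans hηx)
    have h2 : (⌊η⌋₊ : ℝ) ≤ η := Nat.floor_le hη0.le
    have h3 : (⌊η⌋₊ : ℝ) * (1 + Real.log D) ≤ η * (2 * L) := by
      apply mul_le_mul h2 (by linarith) _ hη0.le
      have : 0 ≤ Real.log D := Real.log_natCast_nonneg D
      linarith
    have h4 : (D : ℝ) ≤ η * L := hDη.trans (le_mul_of_one_le_right hη0.le hL1)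
    linarith
  have hfl : ⌊(m : ℝ) + η⌋₊ = m + ⌊η⌋₊ := by
    rw [add_comm, Nat.floor_add_natCast hη0.le, add_comm]
  have h1 := h x ((le_max_left _ _).trans hx) b hb hF m hm0 (by linarith)
  have h2 := h x ((le_max_left _ _).trans hx) b hb hF (m + η) (by positivity) (by linarith)
  rw [Nat.floor_natCast] at h1
  rw [hfl] at h2
  set S1 := ∑ n ∈ Ioc 0 m, b n * (1 - n / m : ℝ) with hS1
  set S2 := ∑ n ∈ Ioc 0 (m + ⌊η⌋₊), b n * (1 - n / (m + η) : ℝ) with hS2
  have key : (η : ℂ) * ∑ n ∈ Ioc 0 m, b n = ((m + η : ℝ) : ℂ) * S2 - (m : ℂ) * S1 -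
      ∑ n ∈ Ioc m (m + ⌊η⌋₊), b n * ((m + η - n : ℝ) : ℂ) := by
    rw [hS1, hS2, mul_sum, mul_sum, mul_sum, ← sum_Ioc_consecutive _ (Nat.zero_le m)
      (Nat.le_add_right m ⌊η⌋₊)]
    have e1 : ∑ n ∈ Ioc m (m + ⌊η⌋₊), ((m + η : ℝ) : ℂ) * (b n * ((1 - n / (m + η) : ℝ) : ℂ)) =
        ∑ n ∈ Ioc m (m + ⌊η⌋₊), b n * ((m + η - n : ℝ) : ℂ) := by
      apply sum_congr rfl
      intro n _
      have : ((m + η - n : ℝ) : ℂ) = ((m + η : ℝ) : ℂ) * ((1 - n / (m + η) : ℝ) : ℂ) := by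
        rw [← Complex.ofReal_mul]
        congr 1
        have : (m : ℝ) + η ≠ 0 := by positivity
        field_simp
      rw [this]; ring
    rw [e1, add_sub_right_comm, add_sub_cancel_right, ← sum_sub_distrib]
    apply sum_congr rfl
    intro n _
    have e2 : ((m + η : ℝ) : ℂ) * ((1 - n / (m + η) : ℝ) : ℂ) = ((m + η - n : ℝ) : ℂ) := by
      rw [← Complex.ofReal_mul]
      congr 1
      have : (m : ℝ) + η ≠ 0 := by positivity
      field_simp
    have e3 : (m : ℂ) * ((1 - n / m : ℝ) : ℂ) = ((m - n : ℝ) : ℂ) := by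
      rw [← Complex.ofReal_natCast, ← Complex.ofReal_mul]
      congr 1
      field_simp
    have e4 : ((m + η - n : ℝ) : ℂ) - ((m - n : ℝ) : ℂ) = (η : ℂ) := by push_cast; ring
    linear_combination (-b n) * e4 + (-b n) * e2 + b n * e3
  have hB : ‖∑ n ∈ Ioc m (m + ⌊η⌋₊), b n * ((m + η - n : ℝ) : ℂ)‖ ≤
      η * ((2 * L) ^ K * (6 * η * L)) := by
    refine (norm_sum_le _ _).trans ?_
    calc ∑ n ∈ Ioc m (m + ⌊η⌋₊), ‖b n * ((m + η - n : ℝ) : ℂ)‖
        ≤ ∑ n ∈ Ioc m (m + ⌊η⌋₊), (η * (2 * L) ^ K) * (#n.divisors : ℝ) := by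
          apply sum_le_sum
          intro n hn
          rw [mem_Ioc] at hn
          have hn1 : (m : ℝ) < n := by exact_mod_cast hn.1
          have hn2 : (n : ℝ) ≤ m + η := by
            have : (n : ℝ) ≤ ((m + ⌊η⌋₊ : ℕ) : ℝ) := by exact_mod_cast hn.2
            push_cast at this
            linarith [Nat.floor_le hη0.le]
          rw [norm_mul, Complex.norm_real, Real.norm_of_nonneg (by linarith)]
          have hln0 : 0 ≤ Real.log n := Real.log_natCast_nonneg n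
          have hln : Real.log n ≤ 2 * L := by
            calc Real.log n ≤ Real.log (2 * x) := Real.log_le_log (by linarith) (by linarith)
              _ = Real.log 2 + L := by rw [Real.log_mul (by norm_num) hx0.ne']
              _ ≤ 2 * L := by linarith [Real.log_two_lt_d9]
          calc ‖b n‖ * (m + η - n) ≤ ((#n.divisors : ℝ) * (2 * L) ^ K) * η := by
                apply mul_le_mul _ (by linarith) (by linarith) (by positivity)
                refine (hb n).trans ?_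
                gcongr
            _ = _ := by ring
      _ = (η * (2 * L) ^ K) * ∑ n ∈ Ioc m (m + ⌊η⌋₊), (#n.divisors : ℝ) := by rw [mul_sum]
      _ ≤ (η * (2 * L) ^ K) * (6 * η * L) := by gcongr
      _ = _ := by ring
  set W := L ^ (K + 2) / L ^ (2 * A + 6) with hW
  have hW0 : 0 < W := by positivity
  have hWL : W * L ^ (A + 2) ≤ L ^ (K + 1) / L ^ (A + 2) := by
    have e : L ^ (2 * A + 6) = L ^ (A + 2) * L ^ (A + 2) * (L * L) := by
      rw [← pow_add, ← pow_two L, ← pow_add]; congr 1; omega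
    have e2 : L ^ (K + 2) = L ^ (K + 1) * L := pow_succ _ _
    have e3 : W * L ^ (A + 2) = L ^ (K + 1) / L ^ (A + 2) / L := by
      rw [hW, e, e2]; field_simp
    rw [e3]
    exact div_le_self (by positivity) hL1
  have hfin : η * ‖∑ n ∈ Ioc 0 m, b n‖ ≤
      η * ((5 * C + 6 * 2 ^ K) * x * (L ^ (K + 1) / L ^ (A + 2))) := by
    calc η * ‖∑ n ∈ Ioc 0 m, b n‖ = ‖(η : ℂ) * ∑ n ∈ Ioc 0 m, b n‖ := by
          rw [norm_mul, Complex.norm_real, Real.norm_of_nonneg hη0.le]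
      _ ≤ (m + η) * ‖S2‖ + m * ‖S1‖ + η * ((2 * L) ^ K * (6 * η * L)) := by
          rw [key]
          refine (norm_sub_le _ _).trans (add_le_add ((norm_sub_le _ _).trans (add_le_add ?_ ?_)) hB)
          · rw [norm_mul, Complex.norm_real, Real.norm_of_nonneg (by positivity)]
          · rw [norm_mul, Complex.norm_natCast]
      _ ≤ (m + η) * (C * (m + η) * W) + m * (C * m * W) +
          η * ((2 * L) ^ K * (6 * η * L)) := by gcongr
      _ ≤ (2 * x) * (C * (2 * x) * W) + x * (C * x * W) +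
          η * ((2 * L) ^ K * (6 * η * L)) := by
            have : (m : ℝ) + η ≤ 2 * x := by linarith
            gcongr
      _ = η * (5 * C * x * (W * L ^ (A + 2)) +
            6 * 2 ^ K * x * (L ^ (K + 1) / L ^ (A + 2))) := by
          rw [mul_pow, hη, pow_succ L K]
          field_simp
          ring
      _ ≤ η * (5 * C * x * (L ^ (K + 1) / L ^ (A + 2)) +
            6 * 2 ^ K * x * (L ^ (K + 1) / L ^ (A + 2))) := by
          gcongr
      _ = _ := by ring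
  exact le_of_mul_le_mul_left hfin hη0

/-- Row FSB: from bounds of the Dirichlet series to bounds of the partial sums. -/
theorem FSB : FSB_stmt := by
  intro A
  refine ⟨2 * A + 6, ?_⟩
  intro K
  obtain ⟨C, x₀, hC, h⟩ := FSB_sharp A K
  obtain ⟨L₀, hL₀⟩ := FSB_large A
  refine ⟨4 + 2 * C * 2 ^ K, max x₀ (Real.exp (max L₀ 2)), by positivity, ?_⟩
  intro x hx a ha hF
  have hx1 : Real.exp (max L₀ 2) ≤ x := (le_max_right _ _).trans hx
  have hx0 : 0 < x := (Real.exp_pos _).trans_le hx1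
  set L := Real.log x with hL
  have hLm : max L₀ 2 ≤ L := by rw [hL, Real.le_log_iff_exp_le hx0]; exact hx1
  have hL2 : 2 ≤ L := (le_max_right _ _).trans hLm
  have hL0 : 0 < L := by linarith
  have hlogL := hL₀ L ((le_max_left _ _).trans hLm)
  set b : ℕ → ℂ := fun n => a n * (Real.log n : ℂ) ^ K with hbdef
  have hb : ∀ n, ‖b n‖ ≤ (#n.divisors : ℝ) * Real.log n ^ K := by
    intro n
    rw [hbdef]
    simp only [norm_mul, norm_pow, Complex.norm_real]
    rw [Real.norm_of_nonneg (Real.log_natCast_nonneg n)]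
    exact mul_le_mul_of_nonneg_right (ha n) (pow_nonneg (Real.log_natCast_nonneg n) _)
  have hB := h x ((le_max_left _ _).trans hx) b hb hF
  set X := ⌊x⌋₊ with hX
  set Y := ⌊x / L ^ (A + 1)⌋₊ with hY
  have hXx : (X : ℝ) ≤ x := Nat.floor_le hx0.le
  have hYx : (Y : ℝ) ≤ x / L ^ (A + 1) := Nat.floor_le (by positivity)
  have hLA : (1 : ℝ) ≤ L ^ (A + 1) := one_le_pow₀ (by linarith)
  have hYX : Y ≤ X := Nat.floor_le_floor (div_le_self hx0.le hLA)
  -- the trivial part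
  have hYtriv : ‖∑ n ∈ Ioc 0 Y, a n‖ ≤ 4 * x / L ^ A := by
    refine (norm_sum_le _ _).trans ?_
    calc ∑ n ∈ Ioc 0 Y, ‖a n‖ ≤ ∑ n ∈ Ioc 0 Y, (#n.divisors : ℝ) := sum_le_sum fun n _ => ha n
      _ ≤ Y * (4 * L) := by
          rcases Nat.eq_zero_or_pos Y with h0 | h0
          · rw [h0]; simp
          · have h1 := FSB_divs 0 Y Y (by nlinarith)
            rw [zero_add] at h1
            have h2 : Real.log Y ≤ L := Real.log_le_log (by exact_mod_cast h0) (by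
              calc (Y : ℝ) ≤ X := by exact_mod_cast hYX
                _ ≤ x := hXx)
            have h3 : (0 : ℝ) ≤ Y := Nat.cast_nonneg Y
            calc _ ≤ _ := h1
              _ = (Y : ℝ) * (2 * (2 + Real.log Y)) := by ring
              _ ≤ Y * (4 * L) := by
                apply mul_le_mul_of_nonneg_left _ h3
                linarith
      _ ≤ (x / L ^ (A + 1)) * (4 * L) := by gcongr
      _ = 4 * x / L ^ A := by rw [pow_succ]; field_simp
  rcases hYX.eq_or_lt with hYX' | hYX'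
  · rw [← hYX']
    refine hYtriv.trans ?_
    gcongr
    linarith [show 0 ≤ 2 * C * 2 ^ K by positivity]
  -- the main part
  have hlogY : L / 2 ≤ Real.log ((Y + 1 : ℕ) : ℝ) := by
    have h1 : x / L ^ (A + 1) ≤ ((Y + 1 : ℕ) : ℝ) := by
      push_cast
      exact (Nat.lt_floor_add_one _).le
    have hlL : 0 ≤ Real.log L := Real.log_nonneg (by linarith)
    calc L / 2 ≤ L - (A + 1 : ℝ) * Real.log L := by nlinarith
      _ = Real.log (x / L ^ (A + 1)) := by
        rw [Real.log_div hx0.ne' (by positivity), Real.log_pow, ← hL]; push_cast; ring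
      _ ≤ _ := Real.log_le_log (by positivity) h1
  have hpos : ∀ n : ℕ, Y < n → 0 < Real.log n := by
    intro n hn
    calc 0 < L / 2 := by positivity
      _ ≤ Real.log ((Y + 1 : ℕ) : ℝ) := hlogY
      _ ≤ Real.log n := Real.log_le_log (by positivity) (by exact_mod_cast hn)
  have hab := FSB_abel b (fun n => (Real.log n ^ K)⁻¹) Y X (by
      intro n hn _
      have h1 := hpos n hn
      have h2 : Real.log n ≤ Real.log ((n + 1 : ℕ) : ℝ) :=
        Real.log_le_log (by exact_mod_cast Nat.pos_of_ne_zero (by omega)) (by push_cast; linarith)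
      gcongr) (by
      intro n hn
      have := hpos n hn
      positivity) (2 * (C * x * (L ^ (K + 1) / L ^ (A + 2)))) (by
      intro m hm1 hm2
      have e : ∑ n ∈ Ioc Y m, b n = ∑ n ∈ Ioc 0 m, b n - ∑ n ∈ Ioc 0 Y, b n := by
        rw [← sum_Ioc_consecutive _ (Nat.zero_le Y) hm1]; ring
      rw [e]
      have h1 := hB m (by
        calc (m : ℝ) ≤ X := by exact_mod_cast hm2
          _ ≤ x := hXx)
      have h2 := hB Y (by
        calc (Y : ℝ) ≤ X := by exact_mod_cast hYX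
          _ ≤ x := hXx)
      calc _ ≤ _ := norm_sub_le _ _
        _ ≤ _ := by linarith) hYX'
  have e1 : ∑ n ∈ Ioc Y X, a n = ∑ n ∈ Ioc Y X, b n * (((Real.log n ^ K)⁻¹ : ℝ) : ℂ) := by
    apply sum_congr rfl
    intro n hn
    rw [mem_Ioc] at hn
    have := hpos n hn.1
    rw [hbdef]
    simp only
    have hne : ((Real.log n : ℝ) : ℂ) ^ K ≠ 0 := pow_ne_zero _ (by exact_mod_cast this.ne')
    push_cast at hne ⊢
    rw [mul_assoc, mul_inv_cancel₀ hne, mul_one]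
  rw [← sum_Ioc_consecutive _ (Nat.zero_le Y) hYX, e1]
  have h8 : 2 * (C * x * (L ^ (K + 1) / L ^ (A + 2))) * (Real.log ((Y + 1 : ℕ) : ℝ) ^ K)⁻¹ ≤
      2 * C * 2 ^ K * x / L ^ A := by
    calc 2 * (C * x * (L ^ (K + 1) / L ^ (A + 2))) * (Real.log ((Y + 1 : ℕ) : ℝ) ^ K)⁻¹
        ≤ 2 * (C * x * (L ^ (K + 1) / L ^ (A + 2))) * ((L / 2) ^ K)⁻¹ := by gcongr
      _ = 2 * C * 2 ^ K * x / L ^ (A + 1) := by
        have e2 : L ^ (K + 1) = L ^ K * L := pow_succ _ _
        have e3 : L ^ (A + 2) = L ^ (A + 1) * L := pow_succ _ _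
        rw [div_pow, e2, e3]
        field_simp
      _ ≤ 2 * C * 2 ^ K * x / L ^ A := by
        gcongr
        · linarith
        · omega
  calc _ ≤ _ := norm_add_le _ _
    _ ≤ 4 * x / L ^ A + 2 * C * 2 ^ K * x / L ^ A := add_le_add hYtriv (hab.trans h8)
    _ = _ := by ring

end Pool.Agent.BP
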