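import Pool.Agent.helper36.BP.SpecD

/-!
# Project bp, row KEY: the key estimate
-/

set_option autoImplicit false

open Finset
open Pool.Agent.FI Pool.Agent.HK
open Pool.Agent.CH (nit rgh ll2)
open Pool.Agent.SK (tr0 Th)

noncomputable section

namespace Pool.Agent.BP

private lemma KEY_cvp {g h : ℕ → ℂ} (hg : CM g) (hh : CM h) {p : ℕ} (hp : p.Prime) :
    cv g h p = g p + h p := by
  unfold cv
  rw [Nat.sum_divisorsAntidiagonal (fun a b => g a * h b), hp.sum_divisors]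
  rw [Nat.div_self hp.pos, Nat.div_one, hg.2.1, hh.2.1]
  ring

private lemma KEY_LGp {g h : ℕ → ℂ} (hg : CM g) (hh : CM h) {p : ℕ} (hp : p.Prime) :
    LG g h p = (Real.log p : ℂ) * cv g h p := by
  unfold LG
  rw [KEY_cvp hg hh hp, ArithmeticFunction.vonMangoldt_apply_prime hp]

private lemma KEY_LGn {g h : ℕ → ℂ} (hg : CM g) (hh : CM h) (n : ℕ) :
    ‖LG g h n‖ ≤ 2 * ArithmeticFunction.vonMangoldt n := by
  unfold LG
  rw [norm_mul, Complex.norm_real, Real.norm_of_nonneg ArithmeticFunction.vonMangoldt_nonneg, mul_comm]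
  apply mul_le_mul_of_nonneg_right _ ArithmeticFunction.vonMangoldt_nonneg
  calc ‖g n + h n‖ ≤ ‖g n‖ + ‖h n‖ := norm_add_le _ _
    _ ≤ 2 := by linarith [hg.2.2.2 n, hh.2.2.2 n]

private lemma KEY_PW (hSRF : SRF_stmt) (Ψ : ℤ × ℤ → ℂ) (g h : ℕ → ℂ) (hg : CM g) (hh : CM h)
    (hr : ∀ n : ℕ, 1 ≤ n → rf Ψ n = cv g h n) (u : ℕ) (w : ℕ → ℝ) (hw0 : ∀ n, 0 ≤ w n) (hw1 : ∀ n, w n ≤ 1) :
    ‖PW u w Ψ - ∑ n ∈ Ioc 0 u, LG g h n * (w n : ℂ)‖ ≤ 2 * (Chebyshev.psi u - Chebyshev.theta u) := by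
  classical
  have h1 : PW u w Ψ = ∑ p ∈ Ioc 0 u with p.Prime, LG g h p * (w p : ℂ) := by
    have h2 := hSRF.2.2 (fun z => (w (nn z) : ℂ) * Ψ z) u
    have h3 : PW u w Ψ = PS u (fun z => (w (nn z) : ℂ) * Ψ z) := by
      unfold PW PS
      apply sum_congr rfl
      intro z _
      push_cast
      ring
    rw [h3, h2]
    apply sum_congr rfl
    intro p hp
    rw [mem_filter, mem_Ioc] at hp
    have h4 : rf (fun z => (w (nn z) : ℂ) * Ψ z) p = (w p : ℂ) * rf Ψ p := by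
      unfold rf
      rw [mul_sum]
      apply sum_congr rfl
      intro z hz
      rw [mem_filter] at hz
      simp only [hz.2]
    rw [h4, hr p hp.2.one_le, KEY_LGp hg hh hp.2]
    ring
  have h2 : ∑ n ∈ Ioc 0 u, LG g h n * (w n : ℂ) = ∑ p ∈ Ioc 0 u with p.Prime, LG g h p * (w p : ℂ) +
      ∑ p ∈ Ioc 0 u with ¬ p.Prime, LG g h p * (w p : ℂ) :=
    (sum_filter_add_sum_filter_not _ _ _).symm
  rw [h1, h2, sub_add_cancel_left, norm_neg, Chebyshev.psi_sub_theta_eq_sum_not_prime, Nat.floor_natCast, mul_sum]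
  refine (norm_sum_le _ _).trans (sum_le_sum fun n hn => ?_)
  rw [norm_mul, Complex.norm_real, Real.norm_of_nonneg (hw0 n)]
  calc ‖LG g h n‖ * w n ≤ ‖LG g h n‖ * 1 := mul_le_mul_of_nonneg_left (hw1 n) (norm_nonneg _)
    _ ≤ _ := by rw [mul_one]; exact KEY_LGn hg hh n

private lemma KEY_blk0 (r : ℕ) (hr : r ≤ 6) (u : Fin r → ℕ → ℂ) (e : Fin r → ℕ) (x : ℕ) (W : ℕ → ℂ)
    (hW : ∀ n, n ≤ x ^ 2 ∨ 64 * x ^ 2 < n → W n = 0)
    (he : ¬ (x ^ 2 ≤ 2 ^ 10 * ∏ k, 2 ^ e k ∧ ∏ k, 2 ^ e k ≤ 64 * x ^ 2)) : blk r u e W = 0 := by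
  unfold blk
  apply sum_eq_zero
  intro m hm
  rw [Fintype.mem_piFinset] at hm
  have h1 : ∏ k, 2 ^ e k ≤ ∏ k, m k := prod_le_prod' fun k _ => (mem_Ico.1 (hm k)).1
  have h2 : ∏ k, m k ≤ 2 ^ 6 * ∏ k, 2 ^ e k := by
    calc ∏ k, m k ≤ ∏ k, 2 ^ (e k + 1) := prod_le_prod' fun k _ => (mem_Ico.1 (hm k)).2.le
      _ = 2 ^ r * ∏ k, 2 ^ e k := by
        simp_rw [pow_succ]
        rw [prod_mul_distrib]
        simp [mul_comm]
      _ ≤ 2 ^ 6 * ∏ k, 2 ^ e k := Nat.mul_le_mul_right _ (Nat.pow_le_pow_right (by norm_num) hr)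
  rw [hW, mul_zero]
  by_contra hcon
  push Not at hcon
  apply he
  constructor
  · omega
  · omega

private lemma KEY_Thb (hTHB : SK.THB_stmt) (δ : ℝ) (hδ : 0 < δ) (t : ℝ) :
    ‖Th δ t‖ ≤ 2 * δ * (1 + (t / (2 / δ)) ^ 2)⁻¹ := by
  obtain ⟨h1, h2, -, -⟩ := hTHB δ hδ
  rw [← div_eq_mul_inv, le_div_iff₀ (by positivity)]
  have h3 := h1 t
  have h4 : ‖Th δ t‖ * (t / (2 / δ)) ^ 2 ≤ δ := by
    rcases eq_or_ne t 0 with h | h
    · subst h
      simp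
      exact hδ.le
    · calc ‖Th δ t‖ * (t / (2 / δ)) ^ 2 ≤ 4 / (δ * t ^ 2) * (t / (2 / δ)) ^ 2 :=
          mul_le_mul_of_nonneg_right (h2 t h) (by positivity)
        _ = δ := by field_simp; ring
  nlinarith

private lemma KEY_int (hTHB : SK.THB_stmt) (δ T U V : ℝ) (hδ : 0 < δ) (hT : 0 < T) (hU : 0 ≤ U) (hV : 0 ≤ V)
    (G : ℝ → ℝ) (hG0 : ∀ t, 0 ≤ G t) (h1 : ∀ t, |t| ≤ T → G t ≤ U) (h2 : ∀ t, G t ≤ V) :
    ∫ t : ℝ, ‖Th δ t‖ * G t ≤ 4 * Real.pi * U + 8 * Real.pi * V / (δ * T) := by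
  have hg1 : MeasureTheory.Integrable fun t : ℝ => U * (2 * δ) * (1 + (t / (2 / δ)) ^ 2)⁻¹ :=
    (integrable_inv_one_add_sq.comp_div (show (2 / δ : ℝ) ≠ 0 by positivity)).const_mul _
  have hg2 : MeasureTheory.Integrable fun t : ℝ => V * (8 / (δ * T ^ 2)) * (1 + (t / T) ^ 2)⁻¹ :=
    (integrable_inv_one_add_sq.comp_div hT.ne').const_mul _
  have hval : ∫ t : ℝ, (U * (2 * δ) * (1 + (t / (2 / δ)) ^ 2)⁻¹ + V * (8 / (δ * T ^ 2)) * (1 + (t / T) ^ 2)⁻¹) =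
      4 * Real.pi * U + 8 * Real.pi * V / (δ * T) := by
    rw [MeasureTheory.integral_add hg1 hg2, MeasureTheory.integral_const_mul, MeasureTheory.integral_const_mul,
      MeasureTheory.Measure.integral_comp_div (fun ξ : ℝ => (1 + ξ ^ 2)⁻¹) (2 / δ),
      MeasureTheory.Measure.integral_comp_div (fun ξ : ℝ => (1 + ξ ^ 2)⁻¹) T, integral_univ_inv_one_add_sq,
      abs_of_pos hT, abs_of_pos (show (0 : ℝ) < 2 / δ by positivity), smul_eq_mul, smul_eq_mul]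
    field_simp
    ring
  rw [← hval]
  apply MeasureTheory.integral_mono_of_nonneg
  · exact Filter.Eventually.of_forall fun t => mul_nonneg (norm_nonneg _) (hG0 t)
  · exact hg1.add hg2
  · refine Filter.Eventually.of_forall fun t => ?_
    simp only
    have hp1 : (0 : ℝ) < (1 + (t / (2 / δ)) ^ 2)⁻¹ := by positivity
    have hp2 : (0 : ℝ) < (1 + (t / T) ^ 2)⁻¹ := by positivity
    by_cases ht : |t| ≤ T
    · have h3 : ‖Th δ t‖ * G t ≤ (2 * δ * (1 + (t / (2 / δ)) ^ 2)⁻¹) * U :=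
        mul_le_mul (KEY_Thb hTHB δ hδ t) (h1 t ht) (hG0 t) (by positivity)
      have h4 : 0 ≤ V * (8 / (δ * T ^ 2)) * (1 + (t / T) ^ 2)⁻¹ := by positivity
      linarith
    · push Not at ht
      have ht0 : t ≠ 0 := by
        intro h
        rw [h, abs_zero] at ht
        linarith
      have h5 : T ^ 2 ≤ t ^ 2 := by
        rw [← sq_abs t]
        exact pow_le_pow_left₀ hT.le ht.le 2
      have h3 : ‖Th δ t‖ * G t ≤ 4 / (δ * t ^ 2) * V :=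
        mul_le_mul ((hTHB δ hδ).2.1 t ht0) (h2 t) (hG0 t) (by positivity)
      have h6 : 4 / (δ * t ^ 2) ≤ 8 / (δ * T ^ 2) * (1 + (t / T) ^ 2)⁻¹ := by
        rw [← div_eq_mul_inv, div_div, div_le_div_iff₀ (by positivity) (by positivity)]
        have h7 : δ * T ^ 2 * (1 + (t / T) ^ 2) = δ * (T ^ 2 + t ^ 2) := by
          field_simp
        rw [h7]
        nlinarith
      have h8 : 4 / (δ * t ^ 2) * V ≤ 8 / (δ * T ^ 2) * (1 + (t / T) ^ 2)⁻¹ * V :=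
        mul_le_mul_of_nonneg_right h6 hV
      have h4 : 0 ≤ U * (2 * δ) * (1 + (t / (2 / δ)) ^ 2)⁻¹ := by positivity
      linarith

private lemma KEY_sumint (hTHF : THF_stmt) (δ : ℝ) (hδ : 0 < δ) (T : Finset ℤ) (G : ℤ → ℝ → ℝ)
    (hc : ∀ m, Continuous (G m)) (B : ℤ → ℝ) (hB : ∀ m t, |G m t| ≤ B m) :
    ∑ m ∈ T, ∫ t : ℝ, ‖Th δ t‖ * G m t = ∫ t : ℝ, ‖Th δ t‖ * ∑ m ∈ T, G m t := by
  rw [← MeasureTheory.integral_finsetSum]
  · congr 1
    ext t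
    rw [mul_sum]
  · intro m _
    exact (hTHF δ hδ).1.norm.mul_bdd (c := B m) (hc m).aestronglyMeasurable
      (Filter.Eventually.of_forall fun t => by rw [Real.norm_eq_abs]; exact hB m t)

private lemma KEY_mue (z : ℤ × ℤ) : |mue z| ≤ 1 := by
  unfold mue
  split_ifs
  · rw [abs_mul]
    have h1 : |((ArithmeticFunction.moebius (nn z / Int.gcd z.1 z.2 ^ 2) : ℤ) : ℝ)| ≤ 1 := by
      rw [← Int.cast_abs]
      exact_mod_cast ArithmeticFunction.abs_moebius_le_one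
    have h2 : |ch8 (Int.gcd z.1 z.2)| ≤ 1 := by
      unfold ch8
      split_ifs <;> simp
    calc _ ≤ (1 : ℝ) * 1 := mul_le_mul h1 h2 (abs_nonneg _) zero_le_one
      _ = 1 := one_mul 1
  · simp

private lemma KEY_nit (t x : ℝ) : ‖nit t x‖ = 1 := by
  unfold nit
  exact Complex.norm_exp_ofReal_mul_I _

private lemma KEY_polc (f : ℤ × ℤ → ℂ) (e : ℕ) : Continuous (fun t => pol f e t) := by
  unfold pol nit
  fun_prop

private lemma KEY_pol (hSRF : SRF_stmt) (x : ℕ) (L : ℝ) (hL1 : 1 ≤ L)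
    (hL : Real.log (128 * (x : ℝ) ^ 2) ≤ 5 * L) (Ψ : ℤ × ℤ → ℂ) (hΨ : ∀ z : ℤ × ℤ, z.1 % 2 = 1 → ‖Ψ z‖ ≤ 1)
    (a e : ℕ) (he : 2 ^ e ≤ 64 * x ^ 2) (t : ℝ) :
    ‖pol (fun z => wt x a z * Ψ z) e t‖ ≤ 250 * L * 2 ^ e := by
  classical
  have hrf1 : ∀ n : ℕ, rf (fun _ => (1 : ℂ)) n = (#{z ∈ FF n | nn z = n} : ℂ) := by
    intro n
    unfold rf
    simp
  have key : ∀ n ∈ Ico (2 ^ e) (2 ^ (e + 1)), ‖rf (fun z => wt x a z * Ψ z) n * nit t n‖ ≤
      5 * L * ‖rf (fun _ => (1 : ℂ)) n‖ := by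
    intro n hn
    rw [mem_Ico] at hn
    have hn0 : 0 < n := lt_of_lt_of_le (by positivity) hn.1
    have hnx : (n : ℝ) ≤ 128 * (x : ℝ) ^ 2 := by
      have : n ≤ 128 * x ^ 2 := by rw [pow_succ] at hn; omega
      exact_mod_cast this
    rw [norm_mul, KEY_nit, mul_one, hrf1]
    have h2 : ‖(#{z ∈ FF n | nn z = n} : ℂ)‖ = (#{z ∈ FF n | nn z = n} : ℝ) := by
      rw [Complex.norm_natCast]
    rw [h2]
    unfold rf
    refine (norm_sum_le _ _).trans ?_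
    calc ∑ z ∈ FF n with nn z = n, ‖(wt x a z : ℂ) * Ψ z‖ ≤ ∑ z ∈ FF n with nn z = n, 5 * L := by
          apply sum_le_sum
          intro z hz
          rw [mem_filter] at hz
          have hzo : z.1 % 2 = 1 := by
            have h3 := hz.1
            unfold FF at h3
            rw [mem_filter] at h3
            exact h3.2.1.1
          rw [norm_mul, Complex.norm_real, Real.norm_eq_abs]
          have h4 : |wt x a z| ≤ 5 * L := by
            unfold wt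
            split_ifs
            · rw [abs_one]; linarith
            · rw [hz.2, abs_of_nonneg (Real.log_natCast_nonneg n)]
              exact (Real.log_le_log (by exact_mod_cast hn0) hnx).trans hL
            · exact (KEY_mue z).trans (by linarith)
            · rw [abs_zero]; linarith
          calc |wt x a z| * ‖Ψ z‖ ≤ (5 * L) * 1 := mul_le_mul h4 (hΨ z hzo) (norm_nonneg _) (by linarith)
            _ = _ := mul_one _
      _ = _ := by rw [sum_const, nsmul_eq_mul, mul_comm]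
  unfold pol
  refine (norm_sum_le _ _).trans ((sum_le_sum key).trans ?_)
  rw [← mul_sum]
  have h3 : ∑ n ∈ Ico (2 ^ e) (2 ^ (e + 1)), ‖rf (fun _ => (1 : ℂ)) n‖ ≤ 25 * ((2 ^ (e + 1) : ℕ) : ℝ) := by
    refine le_trans (sum_le_sum_of_subset_of_nonneg ?_ fun _ _ _ => norm_nonneg _)
      (hSRF.2.1 (fun _ => (1 : ℂ)) (by simp) (2 ^ (e + 1)))
    intro n hn
    rw [mem_Ico] at hn
    rw [mem_Ioc]
    exact ⟨lt_of_lt_of_le (by positivity) hn.1, hn.2.le⟩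
  calc 5 * L * ∑ n ∈ Ico (2 ^ e) (2 ^ (e + 1)), ‖rf (fun _ => (1 : ℂ)) n‖
      ≤ 5 * L * (25 * ((2 ^ (e + 1) : ℕ) : ℝ)) := mul_le_mul_of_nonneg_left h3 (by linarith)
    _ = _ := by push_cast; ring

private lemma KEY_block (hFTB : FTB_stmt) (hTHF : THF_stmt) (hSRF : SRF_stmt) (hTHB : SK.THB_stmt)
    (x : ℕ) (L : ℝ) (hL1 : 1 ≤ L) (hL : Real.log (128 * (x : ℝ) ^ 2) ≤ 5 * L)
    (T : Finset ℤ) (Ψ : ℤ → ℤ × ℤ → ℂ) (hΨ : ∀ m, ∀ z : ℤ × ℤ, z.1 % 2 = 1 → ‖Ψ m z‖ ≤ 1)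
    (r : ℕ) (hr : r ≤ 6) (a e : Fin r → ℕ) (he : ∏ k, 2 ^ e k ≤ 64 * x ^ 2)
    (v δ T₀ U : ℝ) (hδ : 0 < δ) (hT₀ : 0 < T₀) (hU : 0 ≤ U)
    (h1 : ∀ t : ℝ, |t| ≤ T₀ → ∑ m ∈ T, ∏ k, ‖pol (fun z => wt x (a k) z * Ψ m z) (e k) t‖ ≤ U) :
    ∑ m ∈ T, ‖blk r (fun k => rf (fun z => wt x (a k) z * Ψ m z)) e (fun n => ((tl v δ n : ℝ) : ℂ))‖ ≤
      4 * Real.pi * U + 8 * Real.pi * (#T * ((250 * L) ^ 6 * (64 * (x : ℝ) ^ 2))) / (δ * T₀) := by
  have hek : ∀ k, 2 ^ e k ≤ 64 * x ^ 2 := by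
    intro k
    refine le_trans ?_ he
    exact Finset.single_le_prod' (f := fun k => 2 ^ e k) (fun i _ => Nat.one_le_two_pow) (mem_univ k)
  have hpk : ∀ m k t, ‖pol (fun z => wt x (a k) z * Ψ m z) (e k) t‖ ≤ 250 * L * 2 ^ e k := fun m k t =>
    KEY_pol hSRF x L hL1 hL (Ψ m) (hΨ m) (a k) (e k) (hek k) t
  have hprod : ∀ m t, ∏ k, ‖pol (fun z => wt x (a k) z * Ψ m z) (e k) t‖ ≤ (250 * L) ^ 6 * (64 * (x : ℝ) ^ 2) := by
    intro m t
    calc ∏ k, ‖pol (fun z => wt x (a k) z * Ψ m z) (e k) t‖ ≤ ∏ k, (250 * L * 2 ^ e k) :=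
          prod_le_prod (fun k _ => norm_nonneg _) (fun k _ => hpk m k t)
      _ = (250 * L) ^ r * ∏ k, (2 : ℝ) ^ e k := by
          rw [prod_mul_distrib]
          simp
      _ ≤ (250 * L) ^ 6 * (64 * (x : ℝ) ^ 2) := by
          have h3 : ∏ k, (2 : ℝ) ^ e k ≤ 64 * (x : ℝ) ^ 2 := by exact_mod_cast he
          have h4 : (250 * L) ^ r ≤ (250 * L) ^ 6 := pow_le_pow_right₀ (by linarith) hr
          exact mul_le_mul h4 h3 (prod_nonneg fun k _ => by positivity) (by positivity)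
  have h0 : ∀ m t, 0 ≤ ∏ k, ‖pol (fun z => wt x (a k) z * Ψ m z) (e k) t‖ := fun m t =>
    prod_nonneg fun k _ => norm_nonneg _
  calc ∑ m ∈ T, ‖blk r (fun k => rf (fun z => wt x (a k) z * Ψ m z)) e (fun n => ((tl v δ n : ℝ) : ℂ))‖
      ≤ ∑ m ∈ T, ∫ t : ℝ, ‖Th δ t‖ * ∏ k, ‖pol (fun z => wt x (a k) z * Ψ m z) (e k) t‖ :=
        sum_le_sum fun m _ => hFTB r (fun k => rf (fun z => wt x (a k) z * Ψ m z)) e v δ hδ
    _ = ∫ t : ℝ, ‖Th δ t‖ * ∑ m ∈ T, ∏ k, ‖pol (fun z => wt x (a k) z * Ψ m z) (e k) t‖ := by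
        apply KEY_sumint hTHF δ hδ T (fun m t => ∏ k, ‖pol (fun z => wt x (a k) z * Ψ m z) (e k) t‖)
          (fun m => ?_) (fun _ => (250 * L) ^ 6 * (64 * (x : ℝ) ^ 2)) (fun m t => ?_)
        · exact continuous_finsetProd _ fun k _ => (KEY_polc _ (e k)).norm
        · rw [abs_of_nonneg (h0 m t)]
          exact hprod m t
    _ ≤ _ := by
        apply KEY_int hTHB δ T₀ U _ hδ hT₀ hU (by positivity)
        · exact fun t => sum_nonneg fun m _ => h0 m t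
        · exact h1
        · intro t
          calc ∑ m ∈ T, ∏ k, ‖pol (fun z => wt x (a k) z * Ψ m z) (e k) t‖ ≤
                ∑ m ∈ T, (250 * L) ^ 6 * (64 * (x : ℝ) ^ 2) := sum_le_sum fun m _ => hprod m t
            _ = _ := by rw [sum_const, nsmul_eq_mul]

private lemma KEY_large (N : ℕ) (C ε : ℝ) (hε : 0 < ε) (hC : 0 ≤ C) :
    ∃ x₀ : ℕ, ∀ x : ℕ, x₀ ≤ x → C * Real.log x ^ N ≤ (x : ℝ) ^ ε := by
  have h1 := isLittleO_log_rpow_rpow_atTop (N : ℝ) hε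
  have h2 := (Asymptotics.isLittleO_iff.1 h1) (show (0 : ℝ) < 1 / (C + 1) by positivity)
  obtain ⟨y, hy⟩ := Filter.eventually_atTop.1 (h2.and (Filter.eventually_ge_atTop 1))
  refine ⟨⌈y⌉₊, fun x hx => ?_⟩
  obtain ⟨h3, h4⟩ := hy x (Nat.ceil_le.1 hx)
  rw [Real.rpow_natCast, Real.norm_of_nonneg (pow_nonneg (Real.log_nonneg h4) _),
    Real.norm_of_nonneg (by positivity)] at h3
  have h5 : 0 ≤ Real.log (x : ℝ) ^ N := pow_nonneg (Real.log_nonneg h4) _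
  calc C * Real.log x ^ N ≤ (C + 1) * Real.log x ^ N := by nlinarith
    _ ≤ (C + 1) * (1 / (C + 1) * (x : ℝ) ^ ε) := mul_le_mul_of_nonneg_left h3 (by linarith)
    _ = (x : ℝ) ^ ε := by
      have : C + 1 ≠ 0 := by positivity
      field_simp

private lemma KEY_logbig (C : ℝ) : ∃ x₀ : ℕ, ∀ x : ℕ, x₀ ≤ x → C ≤ Real.log x := by
  obtain ⟨y, hy⟩ := Filter.eventually_atTop.1 (Real.tendsto_log_atTop.eventually_ge_atTop C)
  exact ⟨⌈y⌉₊, fun x hx => hy x (Nat.ceil_le.1 hx)⟩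

private lemma KEY_E (x : ℕ) (hx : 4 ≤ Real.log x) :
    64 * x ^ 2 < 2 ^ (Nat.log 2 (64 * x ^ 2) + 1) ∧ ((Nat.log 2 (64 * x ^ 2) + 1 : ℕ) : ℝ) ≤ 5 * Real.log x ∧
    Real.log (128 * (x : ℝ) ^ 2) ≤ 5 * Real.log x := by
  have hx0 : x ≠ 0 := by
    intro h
    rw [h, Nat.cast_zero, Real.log_zero] at hx
    linarith
  have hx1 : (0 : ℝ) < x := by exact_mod_cast Nat.pos_of_ne_zero hx0
  have l2 := Real.log_two_gt_d9
  have l2' := Real.log_two_lt_d9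
  have h64 : Real.log 64 = 6 * Real.log 2 := by
    rw [show (64 : ℝ) = 2 ^ 6 by norm_num, Real.log_pow]; norm_num
  have h128 : Real.log 128 = 7 * Real.log 2 := by
    rw [show (128 : ℝ) = 2 ^ 7 by norm_num, Real.log_pow]; norm_num
  refine ⟨Nat.lt_pow_succ_log_self (by norm_num) _, ?_, ?_⟩
  · have h1 : 2 ^ Nat.log 2 (64 * x ^ 2) ≤ 64 * x ^ 2 := Nat.pow_log_le_self 2 (by positivity)
    have h2 : (2 : ℝ) ^ Nat.log 2 (64 * x ^ 2) ≤ 64 * (x : ℝ) ^ 2 := by exact_mod_cast h1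
    have h3 := Real.log_le_log (by positivity) h2
    rw [Real.log_pow, Real.log_mul (by norm_num) (by positivity), Real.log_pow, h64] at h3
    push_cast at h3 ⊢
    by_contra hcon
    push Not at hcon
    have h4 : (0 : ℝ) ≤ (Nat.log 2 (64 * x ^ 2) : ℝ) := Nat.cast_nonneg _
    nlinarith
  · rw [Real.log_mul (by norm_num) (by positivity), Real.log_pow, h128]
    push_cast
    linarith

private lemma KEY_n2 (P X L : ℝ) (hL : 0 < L) (A : ℕ) :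
    9 * (5 * L) ^ 6 * (4 * P * (X / L ^ (A + 8))) = (9 * 5 ^ 6 * (4 * P)) / L ^ 2 * (X / L ^ A) := by
  have h1 : L ^ (A + 8) = L ^ 6 * (L ^ 2 * L ^ A) := by rw [← pow_add, ← pow_add]; congr 1; omega
  rw [h1, mul_pow]
  field_simp

private lemma KEY_n3 (Y K T d q : ℝ) (hd : d ≠ 0) (hq : q ≠ 0) :
    9 * Y * (8 * K * T / (d * q)) = 9 * Y * (8 * K * T) * (1 / d) / q := by
  field_simp

private lemma KEY_n4 (P L x Y T : ℝ) (K : ℕ) :
    9 * (5 * L) ^ 6 * (8 * P * ((3 * Y) * ((250 * L) ^ 6 * (64 * x ^ 2)))) * L ^ K / T =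
    (9 * 5 ^ 6 * (8 * P * (3 * (250 ^ 6 * 64)))) * L ^ (12 + K) * (Y / T) * x ^ 2 := by
  rw [pow_add, show (12 : ℕ) = 6 + 6 by norm_num, pow_add]
  ring

/-- Row KEY: the key estimate. -/
theorem KEY (hKEB : KEB_stmt) (hKYD : KYD_stmt) (hFTB : FTB_stmt) (hTHF : THF_stmt) (hTRI : TRI_stmt) (hUCH : UCH_stmt)
    (hSRF : SRF_stmt) (_hFFC : FFC_stmt) (hTHB : SK.THB_stmt) : KEY_stmt := by
  intro η A B Kd hη hη1
  obtain ⟨x₁, hx₁⟩ := hKEB η (A + 8) B hη hη1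
  set C₂ : ℝ := 9 * 5 ^ 6 * (4 * Real.pi) with hC₂
  set C₃ : ℝ := 9 * 5 ^ 6 * (8 * Real.pi * (3 * (250 ^ 6 * 64))) with hC₃
  have hC₂0 : 0 ≤ C₂ := by positivity
  have hC₃0 : 0 ≤ C₃ := by positivity
  obtain ⟨x₂, hx₂⟩ := KEY_large (A + 1) 1440 (2 / 3) (by norm_num) (by norm_num)
  obtain ⟨x₃, hx₃⟩ := KEY_large (A + 12 + Kd) (3 * C₃) (η / 2) (by positivity) (by positivity)
  obtain ⟨x₄, hx₄⟩ := KEY_logbig (max 4 (3 * C₂))
  refine ⟨max (max x₁ x₂) (max x₃ x₄), ?_⟩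
  intro x hx d hd hdB ψ hψ j i hj hi α hα0 hα1 hUI M hM v δ hδ hδ1 hv1 hv2
  have hxa : x₁ ≤ x := (le_max_left _ _).trans ((le_max_left _ _).trans hx)
  have hxb : x₂ ≤ x := (le_max_right _ _).trans ((le_max_left _ _).trans hx)
  have hxc : x₃ ≤ x := (le_max_left _ _).trans ((le_max_right _ _).trans hx)
  have hxd : x₄ ≤ x := (le_max_right _ _).trans ((le_max_right _ _).trans hx)
  have hL4 : 4 ≤ Real.log x := (le_max_left _ _).trans (hx₄ x hxd)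
  have hLC : 3 * C₂ ≤ Real.log x := (le_max_right _ _).trans (hx₄ x hxd)
  obtain ⟨hE1, hE2, hlog128⟩ := KEY_E x hL4
  set E : ℕ := Nat.log 2 (64 * x ^ 2) + 1 with hE
  have hE0 : 1 ≤ E := by omega
  have hx0 : x ≠ 0 := by
    intro h
    rw [h, Nat.cast_zero, Real.log_zero] at hL4
    linarith
  have hx1n : 1 ≤ x := Nat.pos_of_ne_zero hx0
  have hx1 : (1 : ℝ) ≤ x := by exact_mod_cast hx1n
  have hxp : (0 : ℝ) < x := by linarith
  have h2 := hx₂ x hxb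
  have h3 := hx₃ x hxc
  set L := Real.log x with hL
  have hL0 : 0 < L := by linarith
  have hL1 : 1 ≤ L := by linarith
  have hδ0 : 0 < δ := lt_of_lt_of_le (by positivity) hδ
  set M' : ℕ := max M 1 with hM'
  have hM'1 : 1 ≤ M' := le_max_right _ _
  have hM'x : (M' : ℝ) ≤ (x : ℝ) ^ (1 / 3 - η) := by
    rw [hM']
    push_cast
    apply max_le hM
    exact Real.one_le_rpow hx1 (by linarith)
  set T : Finset ℤ := {m ∈ Icc (-(M' : ℤ)) M' | fr α m ≠ 0} with hT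
  have hTcard : (#T : ℝ) ≤ 3 * (x : ℝ) ^ (1 / 3 - η) := by
    have h4 : #T ≤ 2 * M' + 1 := by
      refine (card_filter_le _ _).trans ?_
      rw [Int.card_Icc]
      omega
    have h5 : (#T : ℝ) ≤ 2 * M' + 1 := by exact_mod_cast h4
    have h6 : (1 : ℝ) ≤ (x : ℝ) ^ (1 / 3 - η) := Real.one_le_rpow hx1 (by linarith)
    linarith
  set Ψ : ℤ → ℤ × ℤ → ℂ := fun m => HC ψ j i (fr α m) with hΨd
  have hUC : ∀ m, UC d (Ψ m) := fun m => hUCH d ψ j i (fr α m) hψ (hUI m)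
  have hΨ : ∀ m, ∀ z : ℤ × ℤ, z.1 % 2 = 1 → ‖Ψ m z‖ ≤ 1 := by
    intro m z hz
    by_cases hc : Nat.Coprime (nn z) d
    · exact ((hUC m).2.2.2.1 z hz hc).le
    · rw [(hUC m).2.2.1 z hz hc, norm_zero]
      exact zero_le_one
  set W : ℕ → ℂ := fun n => ((tl v δ n : ℝ) : ℂ) with hW
  have htl0 : ∀ n, 0 ≤ tl v δ n := fun n => by unfold tl tr0; exact le_max_left _ _
  have htl1 : ∀ n, tl v δ n ≤ 1 := fun n => by
    unfold tl tr0
    apply max_le zero_le_one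
    have : 0 ≤ |Real.log n - v| / δ := by positivity
    linarith
  have htlz : ∀ n : ℕ, δ ≤ |Real.log n - v| → tl v δ n = 0 := by
    intro n hn
    unfold tl tr0
    apply max_eq_left
    have : 1 ≤ |Real.log n - v| / δ := by rwa [le_div_iff₀ hδ0, one_mul]
    linarith
  have hWz : ∀ n, n ≤ x ^ 2 ∨ 64 * x ^ 2 < n → W n = 0 := by
    intro n hn
    rw [hW]
    simp only
    rw [htlz n, Complex.ofReal_zero]
    rcases hn with hn | hn
    · have h5 : Real.log n ≤ 2 * L := by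
        rcases Nat.eq_zero_or_pos n with h0 | h0
        · rw [h0, Nat.cast_zero, Real.log_zero]; linarith
        · calc Real.log n ≤ Real.log ((x : ℝ) ^ 2) := Real.log_le_log (by exact_mod_cast h0) (by exact_mod_cast hn)
            _ = 2 * L := by rw [Real.log_pow, ← hL]; push_cast; ring
      rw [abs_of_nonpos (by linarith)]
      linarith
    · have h5 : Real.log (64 * (x : ℝ) ^ 2) ≤ Real.log n := by
        apply Real.log_le_log (by positivity)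
        exact_mod_cast hn.le
      rw [abs_of_nonneg (by linarith)]
      linarith
  choose k₁ k₂ g h h₁ h₂ htri using fun m => hTRI d (Ψ m) (hUC m)
  have hg : ∀ m, CM (g m) := fun m => (htri m).2.2.1
  have hh : ∀ m, CM (h m) := fun m => (htri m).2.2.2.1
  have hrf : ∀ m, ∀ n : ℕ, 1 ≤ n → rf (Ψ m) n = cv (g m) (h m) n := fun m n hn =>
    ((htri m).2.2.2.2.2.2.2 n hn).2.1
  -- the two steps for one frequency
  have hone : ∀ m, ‖PW (64 * x ^ 2) (tl v δ) (Ψ m)‖ ≤ 160 * x * L +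
      ∑ q ∈ Icc 1 3, ∑ e ∈ Fintype.piFinset (fun _ : Fin (2 * q) => range E),
        3 * ‖blk (2 * q) (fun k => rf (fun z => wt x (ak q k) z * Ψ m z)) e W‖ := by
    intro m
    have s1 := KEY_PW hSRF (Ψ m) (g m) (h m) (hg m) (hh m) (hrf m) (64 * x ^ 2) (tl v δ) htl0 htl1
    have s2 := hKYD x d (Ψ m) hx1n hd (hUC m) (g m) (h m) (hg m) (hh m) (hrf m) E W hE1
      (fun n hn => hWz n (Or.inr hn))
    have s3 : ‖∑ n ∈ Ioc 0 (64 * x ^ 2), LG (g m) (h m) n * W n‖ ≤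
        ∑ q ∈ Icc 1 3, ∑ e ∈ Fintype.piFinset (fun _ : Fin (2 * q) => range E),
          3 * ‖blk (2 * q) (fun k => rf (fun z => wt x (ak q k) z * Ψ m z)) e W‖ := by
      rw [s2]
      refine (norm_sum_le _ _).trans (sum_le_sum fun q hq => ?_)
      rw [mem_Icc] at hq
      have hch : (Nat.choose 3 q : ℝ) ≤ 3 := by
        have : q = 1 ∨ q = 2 ∨ q = 3 := by omega
        rcases this with rfl | rfl | rfl <;> norm_num [Nat.choose]
      rw [norm_mul, norm_mul, norm_pow, norm_neg, norm_one, one_pow, one_mul, Complex.norm_natCast, ← mul_sum]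
      exact mul_le_mul hch (norm_sum_le _ _) (norm_nonneg _) (by norm_num)
    have s4 : 2 * (Chebyshev.psi ((64 * x ^ 2 : ℕ) : ℝ) - Chebyshev.theta ((64 * x ^ 2 : ℕ) : ℝ)) ≤ 160 * x * L := by
      have s5 := Chebyshev.psi_sub_theta_le (x := ((64 * x ^ 2 : ℕ) : ℝ)) (by
        have : 1 ≤ 64 * x ^ 2 := by nlinarith
        exact_mod_cast this)
      have s6 : √((64 * x ^ 2 : ℕ) : ℝ) = 8 * x := by
        rw [show (((64 * x ^ 2 : ℕ) : ℝ)) = (8 * (x : ℝ)) ^ 2 by push_cast; ring]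
        exact Real.sqrt_sq (by positivity)
      have s7 : Real.log ((64 * x ^ 2 : ℕ) : ℝ) ≤ 5 * L := by
        refine le_trans (Real.log_le_log ?_ ?_) hlog128
        · push_cast; positivity
        · push_cast; nlinarith [sq_nonneg (x : ℝ)]
      rw [s6] at s5
      have s8 : 2 * (8 * (x : ℝ)) * Real.log ((64 * x ^ 2 : ℕ) : ℝ) ≤ 2 * (8 * (x : ℝ)) * (5 * L) :=
        mul_le_mul_of_nonneg_left s7 (by positivity)
      linarith
    have s9 : ‖PW (64 * x ^ 2) (tl v δ) (Ψ m)‖ ≤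
        ‖PW (64 * x ^ 2) (tl v δ) (Ψ m) - ∑ n ∈ Ioc 0 (64 * x ^ 2), LG (g m) (h m) n * (tl v δ n : ℂ)‖ +
        ‖∑ n ∈ Ioc 0 (64 * x ^ 2), LG (g m) (h m) n * W n‖ := by
      calc ‖PW (64 * x ^ 2) (tl v δ) (Ψ m)‖ = ‖(PW (64 * x ^ 2) (tl v δ) (Ψ m) -
            ∑ n ∈ Ioc 0 (64 * x ^ 2), LG (g m) (h m) n * (tl v δ n : ℂ)) +
            ∑ n ∈ Ioc 0 (64 * x ^ 2), LG (g m) (h m) n * W n‖ := by
            rw [hW, sub_add_cancel]
        _ ≤ _ := norm_add_le _ _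
    linarith
  -- the blocks
  set T₀ : ℝ := (x : ℝ) ^ (1 / 3 - η / 2) with hT₀
  have hT₀0 : 0 < T₀ := by positivity
  set U : ℝ := (x : ℝ) ^ 2 / L ^ (A + 8) with hU
  have hU0 : 0 ≤ U := by positivity
  set D : ℝ := 4 * Real.pi * U + 8 * Real.pi * (#T * ((250 * L) ^ 6 * (64 * (x : ℝ) ^ 2))) / (δ * T₀) with hD
  have hD0 : 0 ≤ D := by positivity
  have hblk : ∀ q ∈ Icc 1 3, ∀ e : Fin (2 * q) → ℕ,
      ∑ m ∈ T, ‖blk (2 * q) (fun k => rf (fun z => wt x (ak q k) z * Ψ m z)) e W‖ ≤ D := by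
    intro q hq e
    rw [mem_Icc] at hq
    by_cases he : x ^ 2 ≤ 2 ^ 10 * ∏ k, 2 ^ e k ∧ ∏ k, 2 ^ e k ≤ 64 * x ^ 2
    · apply KEY_block hFTB hTHF hSRF hTHB x L hL1 hlog128 T Ψ hΨ (2 * q) (by omega) (fun k => ak q k) e he.2
        v δ T₀ U hδ0 hT₀0 hU0
      intro t ht
      apply hx₁ x hxa d hd hdB ψ hψ j i hj hi α hα0 hα1 hUI M' hM'1 hM'x t ht (2 * q) (by omega)
        (fun k => ak q k) e ?_ he.1 he.2
      intro k
      unfold ak
      split_ifs <;> omega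
    · refine le_trans (le_of_eq ?_) hD0
      apply sum_eq_zero
      intro m _
      rw [KEY_blk0 (2 * q) (by omega) _ e x W hWz he, norm_zero]
  have htot : ∑ m ∈ T, ‖PW (64 * x ^ 2) (tl v δ) (Ψ m)‖ ≤ #T * (160 * x * L) + 9 * (5 * L) ^ 6 * D := by
    calc ∑ m ∈ T, ‖PW (64 * x ^ 2) (tl v δ) (Ψ m)‖
        ≤ ∑ m ∈ T, (160 * x * L + ∑ q ∈ Icc 1 3, ∑ e ∈ Fintype.piFinset (fun _ : Fin (2 * q) => range E),
            3 * ‖blk (2 * q) (fun k => rf (fun z => wt x (ak q k) z * Ψ m z)) e W‖) :=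
          sum_le_sum fun m _ => hone m
      _ = #T * (160 * x * L) + ∑ q ∈ Icc 1 3, ∑ e ∈ Fintype.piFinset (fun _ : Fin (2 * q) => range E),
            3 * ∑ m ∈ T, ‖blk (2 * q) (fun k => rf (fun z => wt x (ak q k) z * Ψ m z)) e W‖ := by
          rw [sum_add_distrib, sum_const, nsmul_eq_mul, sum_comm]
          congr 1
          apply sum_congr rfl
          intro q _
          rw [sum_comm]
          apply sum_congr rfl
          intro e _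
          rw [mul_sum]
      _ ≤ #T * (160 * x * L) + ∑ q ∈ Icc 1 3, ∑ e ∈ Fintype.piFinset (fun _ : Fin (2 * q) => range E), 3 * D := by
          apply add_le_add le_rfl
          apply sum_le_sum
          intro q hq
          apply sum_le_sum
          intro e _
          exact mul_le_mul_of_nonneg_left (hblk q hq e) (by norm_num)
      _ ≤ #T * (160 * x * L) + ∑ q ∈ Icc 1 3, (5 * L) ^ 6 * (3 * D) := by
          apply add_le_add le_rfl
          apply sum_le_sum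
          intro q hq
          rw [mem_Icc] at hq
          rw [sum_const, nsmul_eq_mul]
          apply mul_le_mul_of_nonneg_right _ (by positivity)
          rw [Fintype.card_piFinset]
          simp only [card_range, prod_const, card_univ, Fintype.card_fin]
          push_cast
          calc (E : ℝ) ^ (2 * q) ≤ (5 * L) ^ (2 * q) := pow_le_pow_left₀ (by positivity) hE2 _
            _ ≤ (5 * L) ^ 6 := pow_le_pow_right₀ (by linarith) (by omega)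
      _ = _ := by
          rw [sum_const, Nat.card_Icc, nsmul_eq_mul]
          push_cast
          ring
  -- the sum over the original range
  have hsub : ∑ m ∈ Icc (-(M : ℤ)) M with fr α m ≠ 0, ‖PW (64 * x ^ 2) (tl v δ) (HC ψ j i (fr α m))‖ ≤
      ∑ m ∈ T, ‖PW (64 * x ^ 2) (tl v δ) (Ψ m)‖ := by
    apply sum_le_sum_of_subset_of_nonneg
    · intro m hm
      rw [mem_filter, mem_Icc] at hm
      rw [hT, mem_filter, mem_Icc]
      have : (M : ℤ) ≤ M' := by rw [hM']; push_cast; exact le_max_left _ _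
      exact ⟨⟨by omega, by omega⟩, hm.2⟩
    · intro _ _ _
      exact norm_nonneg _
  refine hsub.trans (htot.trans ?_)
  -- the numbers
  have hx2 : (x : ℝ) ^ (2 : ℝ) = (x : ℝ) ^ 2 := Real.rpow_natCast (x : ℝ) 2
  have e1 : (#T : ℝ) * (160 * x * L) ≤ (x : ℝ) ^ 2 / L ^ A / 3 := by
    rw [le_div_iff₀ (by norm_num), le_div_iff₀ (by positivity)]
    have f1 : (x : ℝ) ^ (1 / 3 - η) ≤ (x : ℝ) ^ (1 / 3 : ℝ) := Real.rpow_le_rpow_of_exponent_le hx1 (by linarith)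
    calc (#T : ℝ) * (160 * x * L) * 3 * L ^ A ≤ (3 * (x : ℝ) ^ (1 / 3 : ℝ)) * (160 * x * L) * 3 * L ^ A := by
          gcongr
          linarith
      _ = (1440 * L ^ (A + 1)) * ((x : ℝ) ^ (1 / 3 : ℝ) * x) := by ring
      _ ≤ (x : ℝ) ^ (2 / 3 : ℝ) * ((x : ℝ) ^ (1 / 3 : ℝ) * x) := mul_le_mul_of_nonneg_right h2 (by positivity)
      _ = (x : ℝ) ^ 2 := by
          rw [← mul_assoc, ← Real.rpow_add hxp]
          norm_num
          ring
  have e2 : 9 * (5 * L) ^ 6 * (4 * Real.pi * U) ≤ (x : ℝ) ^ 2 / L ^ A / 3 := by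
    have f1 : 9 * (5 * L) ^ 6 * (4 * Real.pi * U) = C₂ / L ^ 2 * ((x : ℝ) ^ 2 / L ^ A) := by
      rw [hU, hC₂]
      exact KEY_n2 Real.pi _ L hL0 A
    rw [f1]
    have f2 : C₂ / L ^ 2 ≤ 1 / 3 := by
      rw [div_le_div_iff₀ (by positivity) (by norm_num)]
      nlinarith
    calc C₂ / L ^ 2 * ((x : ℝ) ^ 2 / L ^ A) ≤ 1 / 3 * ((x : ℝ) ^ 2 / L ^ A) :=
          mul_le_mul_of_nonneg_right f2 (by positivity)
      _ = _ := by ring
  have e3 : 9 * (5 * L) ^ 6 * (8 * Real.pi * (#T * ((250 * L) ^ 6 * (64 * (x : ℝ) ^ 2))) / (δ * T₀)) ≤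
      (x : ℝ) ^ 2 / L ^ A / 3 := by
    have f1 : 1 / δ ≤ L ^ Kd := by
      rw [div_le_iff₀ hδ0]
      rwa [div_le_iff₀ (by positivity), mul_comm] at hδ
    have f2 : (x : ℝ) ^ (1 / 3 - η) / T₀ * (x : ℝ) ^ (η / 2) = 1 := by
      rw [hT₀, ← Real.rpow_sub hxp, ← Real.rpow_add hxp]
      rw [show (1 / 3 - η - (1 / 3 - η / 2) + η / 2 : ℝ) = 0 by ring, Real.rpow_zero]
    calc 9 * (5 * L) ^ 6 * (8 * Real.pi * (#T * ((250 * L) ^ 6 * (64 * (x : ℝ) ^ 2))) / (δ * T₀))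
        = 9 * (5 * L) ^ 6 * (8 * Real.pi * (#T * ((250 * L) ^ 6 * (64 * (x : ℝ) ^ 2)))) * (1 / δ) / T₀ :=
          KEY_n3 _ _ _ _ _ hδ0.ne' hT₀0.ne'
      _ ≤ 9 * (5 * L) ^ 6 * (8 * Real.pi * ((3 * (x : ℝ) ^ (1 / 3 - η)) * ((250 * L) ^ 6 * (64 * (x : ℝ) ^ 2)))) *
            L ^ Kd / T₀ := by gcongr
      _ = C₃ * L ^ (12 + Kd) * ((x : ℝ) ^ (1 / 3 - η) / T₀) * (x : ℝ) ^ 2 := by
          rw [hC₃]
          exact KEY_n4 _ _ _ _ _ Kd
      _ ≤ (x : ℝ) ^ 2 / L ^ A / 3 := by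
          rw [le_div_iff₀ (by norm_num), le_div_iff₀ (by positivity)]
          calc C₃ * L ^ (12 + Kd) * ((x : ℝ) ^ (1 / 3 - η) / T₀) * (x : ℝ) ^ 2 * 3 * L ^ A
              = (3 * C₃ * L ^ (A + 12 + Kd)) * ((x : ℝ) ^ (1 / 3 - η) / T₀) * (x : ℝ) ^ 2 := by
                rw [show A + 12 + Kd = A + (12 + Kd) by ring, pow_add L A]
                ring
            _ ≤ (x : ℝ) ^ (η / 2) * ((x : ℝ) ^ (1 / 3 - η) / T₀) * (x : ℝ) ^ 2 := by
                gcongr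
            _ = (x : ℝ) ^ 2 := by rw [mul_comm ((x : ℝ) ^ (η / 2)), f2, one_mul]
  calc (#T : ℝ) * (160 * x * L) + 9 * (5 * L) ^ 6 * D = #T * (160 * x * L) + (9 * (5 * L) ^ 6 * (4 * Real.pi * U) +
        9 * (5 * L) ^ 6 * (8 * Real.pi * (#T * ((250 * L) ^ 6 * (64 * (x : ℝ) ^ 2))) / (δ * T₀))) := by
        rw [hD, mul_add]
    _ ≤ (x : ℝ) ^ 2 / L ^ A / 3 + ((x : ℝ) ^ 2 / L ^ A / 3 + (x : ℝ) ^ 2 / L ^ A / 3) :=
        add_le_add e1 (add_le_add e2 e3)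
    _ = (x : ℝ) ^ 2 / L ^ A := by ring

end Pool.Agent.BP
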